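import Pool.Agent.H521Z.Flux.Defs

/-!
# Hamiltonian isotopies on a manifold: composition and reparametrisation
-/

open scoped Manifold ContDiff Topology
open Set Filter

noncomputable section

namespace Pool.Agent.H521Z.Flux

variable {E : Type} [NormedAddCommGroup E] [NormedSpace ℝ E] {H : Type} [TopologicalSpace H]
  {I : ModelWithCorners ℝ E H} {M : Type} [TopologicalSpace M] [ChartedSpace H M]

/-- `Φ` is generated by the Hamiltonian `h` at all times. -/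
def Gen (η : BilinField I M) (h : ℝ → M → ℝ) (Φ : ℝ → M → M) : Prop :=
  ∀ t x, ∃ X : TangentSpace I (Φ t x),
    HasMFDerivAt 𝓘(ℝ, ℝ) I (fun s => Φ s x) t ((1 : ℝ →L[ℝ] ℝ).smulRight X) ∧
      ∀ w : TangentSpace I (Φ t x), η (Φ t x) X w = mvfderiv I (h t) (Φ t x) w

variable (I) in
/-- joint smoothness of a family of maps -/
def SmM (Φ : ℝ → M → M) : Prop :=
  ContMDiff (𝓘(ℝ, ℝ).prod I) I ∞ (fun p : ℝ × M => Φ p.1 p.2)

variable (I) in
/-- joint smoothness of a family of functions -/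
def SmF (h : ℝ → M → ℝ) : Prop :=
  ContMDiff (𝓘(ℝ, ℝ).prod I) 𝓘(ℝ, ℝ) ∞ (fun p : ℝ × M => h p.1 p.2)

/-- `φ` preserves `η` -/
def Pres (η : BilinField I M) (φ : M → M) : Prop :=
  ∀ (x : M) (v w : TangentSpace I x),
    η (φ x) (mfderiv I I φ x v) (mfderiv I I φ x w) = η x v w

/-- a smooth family of symplectomorphisms with its family of inverses -/
structure Fam (η : BilinField I M) (Φ Ψ : ℝ → M → M) : Prop where
  sm : SmM I Φ
  smi : SmM I Ψ
  li : ∀ t x, Ψ t (Φ t x) = x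
  ri : ∀ t x, Φ t (Ψ t x) = x
  sy : ∀ t, Pres η (Φ t)

theorem SmM.slice {Φ : ℝ → M → M} (h : SmM I Φ) (t : ℝ) : ContMDiff I I ∞ (Φ t) :=
  ContMDiff.comp (f := fun x : M => (t, x)) h (contMDiff_const.prodMk contMDiff_id)

theorem SmF.slice {k : ℝ → M → ℝ} (h : SmF I k) (t : ℝ) : ContMDiff I 𝓘(ℝ, ℝ) ∞ (k t) :=
  ContMDiff.comp (f := fun x : M => (t, x)) h (contMDiff_const.prodMk contMDiff_id)

theorem SmM.comp {Φ Ψ : ℝ → M → M} (h : SmM I Φ) (h' : SmM I Ψ) :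
    SmM I (fun t x => Φ t (Ψ t x)) :=
  ContMDiff.comp (f := fun p : ℝ × M => (p.1, Ψ p.1 p.2)) h (contMDiff_fst.prodMk h')

theorem SmF.comp {k : ℝ → M → ℝ} {Ψ : ℝ → M → M} (h : SmF I k) (h' : SmM I Ψ) :
    SmF I (fun t x => k t (Ψ t x)) :=
  ContMDiff.comp (f := fun p : ℝ × M => (p.1, Ψ p.1 p.2)) h (contMDiff_fst.prodMk h')

theorem SmF.add {k k' : ℝ → M → ℝ} (h : SmF I k) (h' : SmF I k') :
    SmF I (fun t x => k t x + k' t x) :=
  ContMDiff.add h h'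

theorem smM_const {φ : M → M} (h : ContMDiff I I ∞ φ) : SmM I (fun _ => φ) :=
  h.comp contMDiff_snd

theorem smF_const {k : M → ℝ} (h : ContMDiff I 𝓘(ℝ, ℝ) ∞ k) : SmF I (fun _ => k) :=
  h.comp contMDiff_snd

theorem Pres.comp {η : BilinField I M} {φ ψ : M → M} (h : Pres η φ) (h' : Pres η ψ)
    (hφ : ContMDiff I I ∞ φ) (hψ : ContMDiff I I ∞ ψ) : Pres η (fun x => φ (ψ x)) := by
  intro x v w
  have e : mfderiv I I (fun x => φ (ψ x)) x = (mfderiv I I φ (ψ x)).comp (mfderiv I I ψ x) :=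
    mfderiv_comp x (hφ.mdifferentiableAt (by simp)) (hψ.mdifferentiableAt (by simp))
  rw [e]
  exact (h (ψ x) _ _).trans (h' x v w)

theorem gen_const (η : BilinField I M) (φ : M → M) : Gen η (fun _ _ => 0) (fun _ => φ) := by
  intro t x
  refine ⟨0, ?_, ?_⟩
  · have := hasMFDerivAt_const (I := 𝓘(ℝ, ℝ)) (I' := I) (φ x) t
    refine this.congr_mfderiv ?_
    apply ContinuousLinearMap.ext_ring
    exact (one_smul ℝ (0 : E)).symm
  · intro w
    rw [mvfderiv_const]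
    simp

theorem mvfderiv_comp' {F : Type} [NormedAddCommGroup F] [NormedSpace ℝ F] {k : M → F}
    {φ : M → M} {x : M} (hk : MDifferentiableAt I 𝓘(ℝ, F) k (φ x))
    (hφ : MDifferentiableAt I I φ x) (v : TangentSpace I x) :
    mvfderiv I (fun y => k (φ y)) x v = mvfderiv I k (φ x) (mfderiv I I φ x v) := by
  have e : mfderiv I 𝓘(ℝ, F) (fun y => k (φ y)) x
      = (mfderiv I 𝓘(ℝ, F) k (φ x)).comp (mfderiv I I φ x) := mfderiv_comp x hk hφ
  exact congrArg (fun L => L v) e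

theorem Gen.comp {η : BilinField I M} {h k : ℝ → M → ℝ} {Φ Φi Ψ : ℝ → M → M}
    (hF : Fam η Φ Φi) (hΨ : SmM I Ψ) (hh : SmF I h) (hk : SmF I k)
    (g1 : Gen η h Φ) (g2 : Gen η k Ψ) :
    Gen η (fun t x => h t x + k t (Φi t x)) (fun t x => Φ t (Ψ t x)) := by
  intro t x
  obtain ⟨X, hX, hX'⟩ := g1 t (Ψ t x)
  obtain ⟨Y, hY, hY'⟩ := g2 t x
  refine ⟨X + mfderiv I I (Φ t) (Ψ t x) Y, ?_, ?_⟩
  · have hc : HasMFDerivAt 𝓘(ℝ, ℝ) (𝓘(ℝ, ℝ).prod I) (fun s => (s, Ψ s x)) t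
        ((ContinuousLinearMap.id ℝ ℝ).prod ((1 : ℝ →L[ℝ] ℝ).smulRight Y) : ℝ →L[ℝ] ℝ × E) :=
      (hasMFDerivAt_id t).prodMk hY
    have hd : MDifferentiableAt (𝓘(ℝ, ℝ).prod I) I (fun p : ℝ × M => Φ p.1 p.2) (t, Ψ t x) :=
      (hF.sm (t, Ψ t x)).mdifferentiableAt (by simp)
    have h3 := hd.hasMFDerivAt.comp t hc
    refine h3.congr_mfderiv ?_
    apply ContinuousLinearMap.ext_ring
    have e1 := mfderiv_prod_eq_add_apply (v := (((1 : ℝ), (Y : E)) : ℝ × E)) hd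
    have e2 := hX.mfderiv
    have e3 : (mfderiv 𝓘(ℝ, ℝ) I (fun s => Φ s (Ψ t x)) t (1 : ℝ) : E) = X := by
      rw [e2]; exact (one_smul ℝ X)
    have e4 : (((ContinuousLinearMap.id ℝ ℝ).prod ((1 : ℝ →L[ℝ] ℝ).smulRight Y) : ℝ →L[ℝ] ℝ × E)
        (1 : ℝ) : ℝ × E) = ((1 : ℝ), Y) :=
      Prod.ext rfl (one_smul ℝ Y)
    have e5 : (((1 : ℝ →L[ℝ] ℝ).smulRight (X + mfderiv I I (Φ t) (Ψ t x) Y)) (1 : ℝ) : E)
        = X + mfderiv I I (Φ t) (Ψ t x) Y := one_smul ℝ _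
    refine Eq.trans ?_ e5.symm
    refine Eq.trans (congrArg (mfderiv (𝓘(ℝ, ℝ).prod I) I (fun p : ℝ × M => Φ p.1 p.2)
      (t, Ψ t x)) e4) ?_
    refine e1.trans ?_
    exact congrArg (fun z : TangentSpace I (Φ t (Ψ t x)) => z + mfderiv I I (Φ t) (Ψ t x) Y) e3
  · intro w
    have d1 : MDifferentiableAt I 𝓘(ℝ, ℝ) (h t) (Φ t (Ψ t x)) :=
      (hh.slice t _).mdifferentiableAt (by simp)
    have dk : ∀ y, MDifferentiableAt I 𝓘(ℝ, ℝ) (k t) y := fun y =>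
      (hk.slice t _).mdifferentiableAt (by simp)
    have dΦ : ∀ y, MDifferentiableAt I I (Φ t) y := fun y =>
      (hF.sm.slice t _).mdifferentiableAt (by simp)
    have dΦi : ∀ y, MDifferentiableAt I I (Φi t) y := fun y =>
      (hF.smi.slice t _).mdifferentiableAt (by simp)
    have d2 : MDifferentiableAt I 𝓘(ℝ, ℝ) (fun y => k t (Φi t y)) (Φ t (Ψ t x)) :=
      (dk _).comp _ (dΦi _)
    have e1 := mvfderiv_fun_add d1 d2
    have e2 := mvfderiv_comp' (k := k t) (φ := Φi t) (x := Φ t (Ψ t x)) (dk _) (dΦi _) w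
    -- pull `w` back
    have e3 : (mfderiv I I (fun y => Φ t (Φi t y)) (Φ t (Ψ t x)) w : E) = w := by
      have : (fun y => Φ t (Φi t y)) = id := funext (hF.ri t)
      rw [this, mfderiv_id]; rfl
    have e4 : mfderiv I I (fun y => Φ t (Φi t y)) (Φ t (Ψ t x))
        = (mfderiv I I (Φ t) (Φi t (Φ t (Ψ t x)))).comp (mfderiv I I (Φi t) (Φ t (Ψ t x))) :=
      mfderiv_comp _ (dΦ _) (dΦi _)
    obtain ⟨w', hw'⟩ : ∃ w' : E, w' = mfderiv I I (Φi t) (Φ t (Ψ t x)) w := ⟨_, rfl⟩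
    have e5 : (mfderiv I I (Φ t) (Φi t (Φ t (Ψ t x))) w' : E) = w := by
      rw [hw']; rw [e4] at e3; exact e3
    have e6 : mvfderiv I (fun y => k t (Φi t y)) (Φ t (Ψ t x)) w
        = mvfderiv I (k t) (Φi t (Φ t (Ψ t x))) w' := by rw [hw']; exact e2
    rw [hF.li] at e5 e6
    have e7 := hF.sy t (Ψ t x) Y w'
    have e8 := hY' w'
    have e9 := hX' w
    have e10 : η (Φ t (Ψ t x)) (mfderiv I I (Φ t) (Ψ t x) Y) w = η (Ψ t x) Y w' := by
      rw [← e7]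
      exact congrArg (η (Φ t (Ψ t x)) (mfderiv I I (Φ t) (Ψ t x) Y)) e5.symm
    have e11 := congrArg (fun L => L w) e1
    simp only [add_apply] at e11
    show η (Φ t (Ψ t x)) (X + mfderiv I I (Φ t) (Ψ t x) Y) w
      = mvfderiv I (fun y => h t y + k t (Φi t y)) (Φ t (Ψ t x)) w
    rw [e11, map_add, add_apply, e9, e10, e8, e6]

/-- A globally defined Hamiltonian isotopy gives an element of `HamC`. -/
theorem mem_HamC_of_gen {η : BilinField I M} {h : ℝ → M → ℝ} {Φ : ℝ → M → M} {ψ : M → M}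
    {K : Set M} (hK : IsCompact K) (hh : SmF I h) (hΦ : SmM I Φ) (g : Gen η h Φ)
    (hs : ∀ t x, x ∉ K → h t x = 0) (h0 : ∀ x, Φ 0 x = x) (h1 : ∀ x, Φ 1 x = ψ x) :
    ψ ∈ HamC η := by
  refine ⟨K, hK, h, Φ, hh.contMDiffOn, fun t _ => hs t, hΦ.contMDiffOn, h0, h1, ?_⟩
  intro t _ x
  obtain ⟨X, hX, hX'⟩ := g t x
  exact ⟨X, hX.hasMFDerivWithinAt, hX'⟩

/-- Reparametrisation: an element of `HamC` is the time-one map of a globally defined isotopy. -/
theorem exists_gen_of_mem_HamC {η : BilinField I M} {ψ : M → M} (hψ : ψ ∈ HamC η) :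
    ∃ (K : Set M) (h : ℝ → M → ℝ) (Φ : ℝ → M → M), IsCompact K ∧ SmF I h ∧ SmM I Φ ∧ Gen η h Φ ∧
      (∀ t x, x ∉ K → h t x = 0) ∧ (∀ x, Φ 0 x = x) ∧ ∀ x, Φ 1 x = ψ x := by
  obtain ⟨K, hK, h, Φ, hh, hs, hΦ, h0, h1, hg⟩ := hψ
  set τ := Real.smoothTransition with hτ
  have τsm : ContDiff ℝ ∞ τ := Real.smoothTransition.contDiff
  have τmem : ∀ t, τ t ∈ Icc (0 : ℝ) 1 := fun t =>
    ⟨Real.smoothTransition.nonneg t, Real.smoothTransition.le_one t⟩
  have hp : ContMDiff (𝓘(ℝ, ℝ).prod I) (𝓘(ℝ, ℝ).prod I) ∞ (fun p : ℝ × M => (τ p.1, p.2)) :=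
    (τsm.contMDiff.comp contMDiff_fst).prodMk contMDiff_snd
  have hp' : ∀ p : ℝ × M, (τ p.1, p.2) ∈ Icc (0 : ℝ) 1 ×ˢ (univ : Set M) := fun p =>
    ⟨τmem _, mem_univ _⟩
  have hh2 : SmF I (fun t x => h (τ t) x) := hh.comp_contMDiff hp hp'
  have hd : ContDiff ℝ ∞ (deriv τ) := τsm.iterate_deriv 1
  refine ⟨K, fun t x => deriv τ t * h (τ t) x, fun t x => Φ (τ t) x, hK, ?_, ?_, ?_, ?_, ?_, ?_⟩
  · exact ContMDiff.mul (hd.contMDiff.comp contMDiff_fst) hh2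
  · exact hΦ.comp_contMDiff hp hp'
  · intro t x
    obtain ⟨X, hX, hX'⟩ := hg (τ t) (τmem t) x
    refine ⟨deriv τ t • X, ?_, ?_⟩
    · have hτd : HasMFDerivAt 𝓘(ℝ, ℝ) 𝓘(ℝ, ℝ) τ t ((1 : ℝ →L[ℝ] ℝ).smulRight (deriv τ t)) :=
        ((τsm.differentiable (by simp)) t).hasDerivAt.hasFDerivAt.hasMFDerivAt
      have h3 := hX.comp t (hτd.hasMFDerivWithinAt (s := univ)) (fun s _ => τmem s)
      rw [hasMFDerivWithinAt_univ] at h3
      refine h3.congr_mfderiv ?_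
      apply ContinuousLinearMap.ext_ring
      show ((1 : ℝ) • deriv τ t) • X = (1 : ℝ) • (deriv τ t • X)
      rw [one_smul, one_smul]
    · intro w
      have d1 : MDifferentiableAt I 𝓘(ℝ, ℝ) (h (τ t)) (Φ (τ t) x) :=
        (hh2.slice t _).mdifferentiableAt (by simp)
      have e1 := mvfderiv_fun_mul (f := fun _ : M => deriv τ t) (g := h (τ t))
        (x := Φ (τ t) x) mdifferentiableAt_const d1
      have e2 := congrArg (fun L => L w) e1
      simp only [mvfderiv_const] at e2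
      show η (Φ (τ t) x) (deriv τ t • X) w
        = mvfderiv I (fun y => deriv τ t * h (τ t) y) (Φ (τ t) x) w
      rw [e2, map_smul, smul_apply, hX' w]
      simp
  · intro t x hx
    show deriv τ t * h (τ t) x = 0
    rw [hs _ (τmem t) x hx, mul_zero]
  · intro x
    show Φ (τ 0) x = x
    rw [hτ, Real.smoothTransition.zero, h0]
  · intro x
    show Φ (τ 1) x = ψ x
    rw [hτ, Real.smoothTransition.one, h1]

/-- Points outside the support of the Hamiltonian do not move; `j` is an injective smooth map to a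
vector space. -/
theorem Gen.fixed [T2Space M] {η : BilinField I M}
    (hη : ∀ (x : M) (v : TangentSpace I x), (∀ w, η x v w = 0) → v = 0)
    {F : Type} [NormedAddCommGroup F] [NormedSpace ℝ F] {j : M → F}
    (hj : ContMDiff I 𝓘(ℝ, F) ∞ j) (hj' : Function.Injective j)
    {h : ℝ → M → ℝ} {Φ : ℝ → M → M} {K : Set M} (hK : IsCompact K)
    (g : Gen η h Φ) (hs : ∀ t x, x ∉ K → h t x = 0) (h0 : ∀ x, Φ 0 x = x) {x : M} (hx : x ∉ K)
    (t : ℝ) : Φ t x = x := by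
  have hcont : Continuous (fun s => Φ s x) := by
    rw [continuous_iff_continuousAt]
    intro s
    obtain ⟨X, hX, -⟩ := g s x
    exact hX.continuousAt
  have hder : ∀ s, Φ s x ∉ K → HasDerivAt (fun s => j (Φ s x)) 0 s := by
    intro s hsK
    obtain ⟨X, hX, hX'⟩ := g s x
    have hX0 : X = 0 := by
      apply hη
      intro w
      rw [hX' w]
      have e : h s =ᶠ[𝓝 (Φ s x)] fun _ => 0 := by
        filter_upwards [hK.isClosed.isOpen_compl.mem_nhds hsK] with y hy using hs s y hy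
      have e2 : mfderiv I 𝓘(ℝ, ℝ) (h s) (Φ s x) = mfderiv I 𝓘(ℝ, ℝ) (fun _ : M => (0 : ℝ)) (Φ s x) :=
        e.mfderiv_eq
      have e3 : mvfderiv I (h s) (Φ s x) w = mvfderiv I (fun _ : M => (0 : ℝ)) (Φ s x) w :=
        congrArg (fun L => L w) e2
      rw [e3, mvfderiv_const]; rfl
    have h3 := ((hj (Φ s x)).mdifferentiableAt (by simp)).hasMFDerivAt.comp s hX
    have h4 : HasMFDerivAt 𝓘(ℝ, ℝ) 𝓘(ℝ, F) (fun s => j (Φ s x)) s (0 : ℝ →L[ℝ] F) := by
      refine h3.congr_mfderiv ?_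
      apply ContinuousLinearMap.ext_ring
      show mfderiv I 𝓘(ℝ, F) j (Φ s x) ((1 : ℝ) • X) = 0
      rw [hX0, smul_zero, map_zero]
    have h5 : HasFDerivAt (fun s => j (Φ s x)) (0 : ℝ →L[ℝ] F) s := hasMFDerivAt_iff_hasFDerivAt.1 h4
    simpa using h5.hasDerivAt
  have hcl : IsClopen {s : ℝ | Φ s x = x} := by
    refine ⟨isClosed_eq hcont continuous_const, ?_⟩
    rw [isOpen_iff_mem_nhds]
    intro s hs'
    have hU : IsOpen {s : ℝ | Φ s x ∉ K} := hK.isClosed.isOpen_compl.preimage hcont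
    have hsU : s ∈ {s : ℝ | Φ s x ∉ K} := by
      show Φ s x ∉ K
      rw [show Φ s x = x from hs']; exact hx
    obtain ⟨ε, hε, hb⟩ := Metric.isOpen_iff.1 hU s hsU
    filter_upwards [Metric.ball_mem_nhds s hε] with s' hs''
    apply hj'
    have := (convex_ball s ε).is_const_of_fderivWithin_eq_zero (𝕜 := ℝ) (f := fun s => j (Φ s x))
      (fun y hy => (hder y (hb hy)).differentiableAt.differentiableWithinAt)
      (fun y hy => by
        rw [fderivWithin_of_isOpen Metric.isOpen_ball hy, (hder y (hb hy)).hasFDerivAt.fderiv]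
        simp) hs'' (Metric.mem_ball_self hε)
    rw [this, show Φ s x = x from hs']
  have := hcl.eq_univ ⟨0, h0 x⟩
  have ht : t ∈ {s : ℝ | Φ s x = x} := by rw [this]; trivial
  exact ht

end Pool.Agent.H521Z.Flux
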