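import Mathlib

/-!
# Ambient computations for the product of four spheres
-/

open scoped ContDiff Topology
open Set Filter Real

noncomputable section

namespace Pool.Agent.H521Z.Flux

abbrev V3 : Type := ℝ × ℝ × ℝ
abbrev W : Type := Fin 4 → V3
abbrev Z : Type := Fin 4 → ℝ × ℝ

def det3 (X U V : V3) : ℝ :=
  X.1 * (U.2.1 * V.2.2 - U.2.2 * V.2.1) - X.2.1 * (U.1 * V.2.2 - U.2.2 * V.1)
    + X.2.2 * (U.1 * V.2.1 - U.2.1 * V.1)

def dot3 (X U : V3) : ℝ := X.1 * U.1 + X.2.1 * U.2.1 + X.2.2 * U.2.2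

def aa : Fin 4 → ℝ := ![2, 1 + √2, 1, 1]

lemma aa_ge (i : Fin 4) : 1 ≤ aa i := by
  have := Real.sqrt_nonneg 2
  fin_cases i <;> simp [aa]

lemma aa_pos (i : Fin 4) : 0 < aa i := lt_of_lt_of_le one_pos (aa_ge i)

def Om (X U V : W) : ℝ := ∑ i, aa i * det3 (X i) (U i) (V i)

def OnS (X : W) : Prop := ∀ i, dot3 (X i) (X i) = 1

def Tan (X U : W) : Prop := ∀ i, dot3 (X i) (U i) = 0

def rr (X : W) : ℝ := ∑ i, 2 * aa i * (1 - (X i).2.2)

def A4 : ℝ := ∑ i, 4 * aa i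

lemma A4_ge : 16 ≤ A4 := by
  have h0 := aa_ge 0
  have h1 := aa_ge 1
  have h2 := aa_ge 2
  have h3 := aa_ge 3
  simp only [A4, Fin.sum_univ_four]
  linarith

def Sig : Set W := {X | OnS X ∧ rr X ≠ 0 ∧ rr X ≠ A4}

lemma contDiff_rr : ContDiff ℝ ∞ rr := by
  unfold rr
  fun_prop

lemma OnS.h_le {X : W} (h : OnS X) (i : Fin 4) : (X i).2.2 ≤ 1 := by
  have := h i
  unfold dot3 at this
  nlinarith [sq_nonneg (X i).1, sq_nonneg (X i).2.1]

lemma OnS.le_h {X : W} (h : OnS X) (i : Fin 4) : -1 ≤ (X i).2.2 := by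
  have := h i
  unfold dot3 at this
  nlinarith [sq_nonneg (X i).1, sq_nonneg (X i).2.1]

lemma OnS.term_le {X : W} (h : OnS X) (i : Fin 4) : 2 * aa i * (1 - (X i).2.2) ≤ rr X := by
  unfold rr
  refine Finset.single_le_sum (f := fun i => 2 * aa i * (1 - (X i).2.2)) (fun j _ => ?_)
    (Finset.mem_univ i)
  have := h.h_le j
  have := aa_pos j
  positivity

lemma OnS.term_le' {X : W} (h : OnS X) (i : Fin 4) : 2 * aa i * (1 + (X i).2.2) ≤ A4 - rr X := by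
  have e : A4 - rr X = ∑ i, 2 * aa i * (1 + (X i).2.2) := by
    unfold A4 rr
    rw [← Finset.sum_sub_distrib]
    exact Finset.sum_congr rfl fun j _ => by ring
  rw [e]
  refine Finset.single_le_sum (f := fun i => 2 * aa i * (1 + (X i).2.2)) (fun j _ => ?_)
    (Finset.mem_univ i)
  have h1 : 0 ≤ 1 + (X j).2.2 := by linarith [h.le_h j]
  have := aa_pos j
  positivity

lemma OnS.rr_nonneg {X : W} (h : OnS X) : 0 ≤ rr X := by
  refine le_trans ?_ (h.term_le 0)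
  have h1 : 0 ≤ 1 - (X 0).2.2 := by linarith [h.h_le 0]
  have := aa_pos 0
  positivity

lemma OnS.rr_le {X : W} (h : OnS X) : rr X ≤ A4 := by
  have h2 := h.term_le' 0
  have h1 : 0 ≤ 1 + (X 0).2.2 := by linarith [h.le_h 0]
  have := aa_pos 0
  have : 0 ≤ 2 * aa 0 * (1 + (X 0).2.2) := by positivity
  linarith

/-! ### derivatives along curves -/

section curves

variable {A B : Type} [NormedAddCommGroup A] [NormedSpace ℝ A] [NormedAddCommGroup B]
  [NormedSpace ℝ B]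

lemma hd1 {γ : ℝ → A × B} {U : A × B} {s : ℝ} (h : HasDerivAt γ U s) :
    HasDerivAt (fun s => (γ s).1) U.1 s :=
  (ContinuousLinearMap.fst ℝ A B).hasFDerivAt.comp_hasDerivAt s h

lemma hd2 {γ : ℝ → A × B} {U : A × B} {s : ℝ} (h : HasDerivAt γ U s) :
    HasDerivAt (fun s => (γ s).2) U.2 s :=
  (ContinuousLinearMap.snd ℝ A B).hasFDerivAt.comp_hasDerivAt s h

lemma hasDerivAt_line (X U : A) : HasDerivAt (fun s : ℝ => X + s • U) U 0 := by
  simpa using ((hasDerivAt_id (0 : ℝ)).smul_const U).const_add X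

lemma fderiv_of_curve {F : A → B} {X U : A} {U' : B} (hF : DifferentiableAt ℝ F X)
    (h : ∀ γ : ℝ → A, γ 0 = X → HasDerivAt γ U 0 → HasDerivAt (fun s => F (γ s)) U' 0) :
    fderiv ℝ F X U = U' := by
  have h1 := h (fun s => X + s • U) (by simp) (hasDerivAt_line X U)
  have h2 : HasFDerivAt F (fderiv ℝ F X) (X + (0 : ℝ) • U) := by simpa using hF.hasFDerivAt
  exact (h2.comp_hasDerivAt (0 : ℝ) (hasDerivAt_line X U)).unique h1

end curves

lemma hd_dot3 {X U : ℝ → V3} {X' U' : V3} {s : ℝ} (h1 : HasDerivAt X X' s)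
    (h2 : HasDerivAt U U' s) :
    HasDerivAt (fun s => dot3 (X s) (U s)) (dot3 X' (U s) + dot3 (X s) U') s := by
  unfold dot3
  refine ((((hd1 h1).mul (hd1 h2)).add ((hd1 (hd2 h1)).mul (hd1 (hd2 h2)))).add
    ((hd2 (hd2 h1)).mul (hd2 (hd2 h2)))).congr_deriv ?_
  ring

lemma hd_det3 {X U V : ℝ → V3} {X' U' V' : V3} {s : ℝ} (h1 : HasDerivAt X X' s)
    (h2 : HasDerivAt U U' s) (h3 : HasDerivAt V V' s) :
    HasDerivAt (fun s => det3 (X s) (U s) (V s))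
      (det3 X' (U s) (V s) + det3 (X s) U' (V s) + det3 (X s) (U s) V') s := by
  unfold det3
  have a1 := hd1 h1
  have a2 := hd1 (hd2 h1)
  have a3 := hd2 (hd2 h1)
  have b1 := hd1 h2
  have b2 := hd1 (hd2 h2)
  have b3 := hd2 (hd2 h2)
  have c1 := hd1 h3
  have c2 := hd1 (hd2 h3)
  have c3 := hd2 (hd2 h3)
  refine (((a1.mul ((b2.mul c3).sub (b3.mul c2))).sub (a2.mul ((b1.mul c3).sub (b3.mul c1)))).add
    (a3.mul ((b1.mul c2).sub (b2.mul c1)))).congr_deriv ?_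
  simp only [Pi.mul_apply, Pi.sub_apply]
  ring

lemma det3_tan {X U V T : V3} (h : dot3 X X = 1) (hU : dot3 X U = 0) (hV : dot3 X V = 0)
    (hT : dot3 X T = 0) : det3 U V T = 0 := by
  unfold dot3 det3 at *
  linear_combination (-(U.1 * (V.2.1 * T.2.2 - V.2.2 * T.2.1) - U.2.1 * (V.1 * T.2.2 - V.2.2 * T.1)
    + U.2.2 * (V.1 * T.2.1 - V.2.1 * T.1))) * h
    + (X.1 * (V.2.1 * T.2.2 - V.2.2 * T.2.1) - X.2.1 * (V.1 * T.2.2 - V.2.2 * T.1)
    + X.2.2 * (V.1 * T.2.1 - V.2.1 * T.1)) * hU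
    + (U.1 * (X.2.1 * T.2.2 - X.2.2 * T.2.1) - U.2.1 * (X.1 * T.2.2 - X.2.2 * T.1)
    + U.2.2 * (X.1 * T.2.1 - X.2.1 * T.1)) * hV
    + (U.1 * (V.2.1 * X.2.2 - V.2.2 * X.2.1) - U.2.1 * (V.1 * X.2.2 - V.2.2 * X.1)
    + U.2.2 * (V.1 * X.2.1 - V.2.1 * X.1)) * hT

/-! ### the flip -/

def flip : W →L[ℝ] W :=
  LinearMap.toContinuousLinearMap
    { toFun := fun X i => ((X i).1, -(X i).2.1, -(X i).2.2)
      map_add' := by intro a b; ext i <;> simp <;> ring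
      map_smul' := by intro c a; ext i <;> simp }

lemma flip_apply (X : W) (i : Fin 4) : flip X i = ((X i).1, -(X i).2.1, -(X i).2.2) := rfl

lemma flip_flip (X : W) : flip (flip X) = X := by
  ext i <;> simp [flip_apply]

lemma rr_flip (X : W) : rr (flip X) = A4 - rr X := by
  unfold A4 rr
  rw [← Finset.sum_sub_distrib]
  exact Finset.sum_congr rfl fun j _ => by rw [flip_apply]; ring

lemma OnS.flip {X : W} (h : OnS X) : OnS (flip X) := fun i => by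
  have := h i
  unfold dot3 at *
  rw [flip_apply]
  linear_combination this

lemma flip_mem {X : W} (h : X ∈ Sig) : flip X ∈ Sig := by
  refine ⟨h.1.flip, ?_, ?_⟩
  · rw [rr_flip]; exact sub_ne_zero.2 h.2.2.symm
  · rw [rr_flip]; intro e; exact h.2.1 (by linarith)

lemma Om_flip (X U V : W) : Om (flip X) (flip U) (flip V) = Om X U V := by
  unfold Om
  refine Finset.sum_congr rfl fun i _ => ?_
  simp only [flip_apply, det3]
  ring

/-! ### rotations about the vertical axes -/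

def rot (α : ℝ) (v : V3) : V3 :=
  (cos α * v.1 - sin α * v.2.1, sin α * v.1 + cos α * v.2.1, v.2.2)

def TT (θ : Fin 4 → ℝ → ℝ) (t : ℝ) (X : W) : W := fun i => rot (t * θ i (X i).2.2) (X i)

lemma TT_h (θ : Fin 4 → ℝ → ℝ) (t : ℝ) (X : W) (i : Fin 4) : (TT θ t X i).2.2 = (X i).2.2 := rfl

lemma rr_TT (θ : Fin 4 → ℝ → ℝ) (t : ℝ) (X : W) : rr (TT θ t X) = rr X := rfl

lemma rot_rot (α β : ℝ) (v : V3) : rot α (rot β v) = rot (α + β) v := by
  simp only [rot, cos_add, sin_add]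
  refine Prod.ext ?_ (Prod.ext ?_ rfl) <;> simp only <;> ring

lemma rot_zero (v : V3) : rot 0 v = v := by simp [rot]

lemma rot_add_int (α : ℝ) (m : ℤ) (v : V3) : rot (α + m * (2 * π)) v = rot α v := by
  simp [rot, cos_add_int_mul_two_pi, sin_add_int_mul_two_pi]

lemma TT_neg (θ : Fin 4 → ℝ → ℝ) (t : ℝ) (X : W) : TT θ (-t) (TT θ t X) = X := by
  funext i
  show rot (-t * θ i (X i).2.2) (rot (t * θ i (X i).2.2) (X i)) = X i
  rw [rot_rot]
  simp [rot_zero]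

lemma TT_zero (θ : Fin 4 → ℝ → ℝ) (X : W) : TT θ 0 X = X := by
  funext i
  simp [TT, rot_zero]

lemma OnS.TT {X : W} (h : OnS X) (θ : Fin 4 → ℝ → ℝ) (t : ℝ) : OnS (TT θ t X) := fun i => by
  have := h i
  have h2 := cos_sq_add_sin_sq (t * θ i (X i).2.2)
  simp only [dot3, Pool.Agent.H521Z.Flux.TT, rot] at *
  linear_combination this + ((X i).1 ^ 2 + (X i).2.1 ^ 2) * h2

lemma TT_mem {X : W} (h : X ∈ Sig) (θ : Fin 4 → ℝ → ℝ) (t : ℝ) : TT θ t X ∈ Sig :=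
  ⟨h.1.TT θ t, h.2.1, h.2.2⟩

lemma contDiff_TT {θ : Fin 4 → ℝ → ℝ} (hθ : ∀ i, ContDiff ℝ ∞ (θ i)) :
    ContDiff ℝ ∞ (fun p : ℝ × W => TT θ p.1 p.2) := by
  rw [contDiff_pi]
  intro i
  have h1 : ContDiff ℝ ∞ (fun p : ℝ × W => p.1 * θ i (p.2 i).2.2) :=
    contDiff_fst.mul ((hθ i).comp (by fun_prop))
  unfold TT rot
  have hc := h1.cos
  have hs := h1.sin
  refine ContDiff.prodMk ?_ (ContDiff.prodMk ?_ ?_)
  · exact (hc.mul (by fun_prop)).sub (hs.mul (by fun_prop))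
  · exact (hs.mul (by fun_prop)).add (hc.mul (by fun_prop))
  · fun_prop

lemma hd_rot {α : ℝ → ℝ} {v : ℝ → V3} {α' : ℝ} {v' : V3} {s : ℝ} (h1 : HasDerivAt α α' s)
    (h2 : HasDerivAt v v' s) :
    HasDerivAt (fun s => rot (α s) (v s))
      (rot (α s) (v'.1 - α' * (v s).2.1, v'.2.1 + α' * (v s).1, v'.2.2)) s := by
  unfold rot
  have a1 := hd1 h2
  have a2 := hd1 (hd2 h2)
  have a3 := hd2 (hd2 h2)
  refine (((h1.cos.mul a1).sub (h1.sin.mul a2)).prodMk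
    (((h1.sin.mul a1).add (h1.cos.mul a2)).prodMk a3)).congr_deriv ?_
  refine Prod.ext ?_ (Prod.ext ?_ rfl) <;> simp only <;> ring

lemma det3_rot (α : ℝ) (X U V : V3) : det3 (rot α X) (rot α U) (rot α V) = det3 X U V := by
  have h2 := cos_sq_add_sin_sq α
  simp only [det3, rot]
  linear_combination (X.1 * (U.2.1 * V.2.2 - U.2.2 * V.2.1) - X.2.1 * (U.1 * V.2.2 - U.2.2 * V.1)
    + X.2.2 * (U.1 * V.2.1 - U.2.1 * V.1)) * h2

lemma fderiv_TT {θ : Fin 4 → ℝ → ℝ} (hθ : ∀ i, ContDiff ℝ ∞ (θ i)) (t : ℝ) (X U : W) :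
    fderiv ℝ (TT θ t) X U = fun i => rot (t * θ i (X i).2.2)
      ((U i).1 - (t * (deriv (θ i) (X i).2.2 * (U i).2.2)) * (X i).2.1,
        (U i).2.1 + (t * (deriv (θ i) (X i).2.2 * (U i).2.2)) * (X i).1, (U i).2.2) := by
  have hd : DifferentiableAt ℝ (TT θ t) X :=
    (((contDiff_TT hθ).comp (contDiff_const.prodMk contDiff_id :
      ContDiff ℝ ∞ (fun X : W => (t, X)))).differentiable (by simp)) X
  refine fderiv_of_curve hd fun γ h0 hγ => ?_
  rw [hasDerivAt_pi]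
  intro i
  have hi := hasDerivAt_pi.1 hγ i
  have h1 : HasDerivAt (θ i) (deriv (θ i) (γ 0 i).2.2) (γ 0 i).2.2 :=
    (((hθ i).differentiable (by simp)) _).hasDerivAt
  have h2 := (h1.comp (0 : ℝ) (hd2 (hd2 hi))).const_mul t
  have h3 := hd_rot h2 hi
  subst h0
  exact h3

lemma Om_TT {θ : Fin 4 → ℝ → ℝ} (hθ : ∀ i, ContDiff ℝ ∞ (θ i)) (t : ℝ) {X U V : W}
    (hU : Tan X U) (hV : Tan X V) :
    Om (TT θ t X) (fderiv ℝ (TT θ t) X U) (fderiv ℝ (TT θ t) X V) = Om X U V := by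
  rw [fderiv_TT hθ, fderiv_TT hθ]
  unfold Om
  refine Finset.sum_congr rfl fun i _ => ?_
  congr 1
  show det3 (rot _ (X i)) (rot _ _) (rot _ _) = _
  rw [det3_rot]
  have h1 := hU i
  have h2 := hV i
  unfold dot3 at h1 h2
  simp only [det3]
  set c := t * deriv (θ i) (X i).2.2
  linear_combination (t * deriv (θ i) (X i).2.2 * (X i).2.2 * (V i).2.2) * h1
    - (t * deriv (θ i) (X i).2.2 * (X i).2.2 * (U i).2.2) * h2

/-- the velocity of the rotation flow -/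
def velT (θ : Fin 4 → ℝ → ℝ) (Y : W) : W := fun i =>
  (-(θ i (Y i).2.2 * (Y i).2.1), θ i (Y i).2.2 * (Y i).1, 0)

lemma hasDerivAt_TT (θ : Fin 4 → ℝ → ℝ) (t : ℝ) (X : W) :
    HasDerivAt (fun s => TT θ s X) (velT θ (TT θ t X)) t := by
  rw [hasDerivAt_pi]
  intro i
  have h1 : HasDerivAt (fun s : ℝ => s * θ i (X i).2.2) (θ i (X i).2.2) t := by
    simpa using (hasDerivAt_id t).mul_const (θ i (X i).2.2)
  have h3 := hd_rot h1 (hasDerivAt_const t (X i))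
  refine h3.congr_deriv ?_
  simp only [velT, TT, rot]
  refine Prod.ext ?_ (Prod.ext ?_ rfl) <;> simp <;> ring

lemma Om_velT (θ : Fin 4 → ℝ → ℝ) {Y V : W} (hY : OnS Y) (hV : Tan Y V) :
    Om Y (velT θ Y) V = ∑ i, aa i * θ i (Y i).2.2 * (V i).2.2 := by
  unfold Om
  refine Finset.sum_congr rfl fun i _ => ?_
  have h1 := hY i
  have h2 := hV i
  unfold dot3 at h1 h2
  simp only [det3, velT]
  linear_combination (aa i * θ i (Y i).2.2 * (V i).2.2) * h1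
    - (aa i * θ i (Y i).2.2 * (Y i).2.2) * h2

lemma tan_velT (θ : Fin 4 → ℝ → ℝ) (Y : W) : Tan Y (velT θ Y) := fun i => by
  simp only [dot3, velT]; ring

/-- the Hamiltonian of the rotation flow -/
def hamT (f : Fin 4 → ℝ → ℝ) (Y : W) : ℝ := ∑ i, f i (Y i).2.2

lemma contDiff_hamT {f : Fin 4 → ℝ → ℝ} (hf : ∀ i, ContDiff ℝ ∞ (f i)) :
    ContDiff ℝ ∞ (hamT f) := by
  unfold hamT
  exact ContDiff.sum fun i _ => (hf i).comp (by fun_prop)

lemma fderiv_hamT {f : Fin 4 → ℝ → ℝ} (hf : ∀ i, ContDiff ℝ ∞ (f i)) (Y V : W) :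
    fderiv ℝ (hamT f) Y V = ∑ i, deriv (f i) (Y i).2.2 * (V i).2.2 := by
  refine fderiv_of_curve (((contDiff_hamT hf).differentiable (by simp)) Y) fun γ h0 hγ => ?_
  unfold hamT
  refine HasDerivAt.fun_sum fun i _ => ?_
  have hi := hasDerivAt_pi.1 hγ i
  have h1 : HasDerivAt (f i) (deriv (f i) (γ 0 i).2.2) (γ 0 i).2.2 :=
    (((hf i).differentiable (by simp)) _).hasDerivAt
  have h2 := h1.comp (0 : ℝ) (hd2 (hd2 hi))
  subst h0
  exact h2

end Pool.Agent.H521Z.Flux
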