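import Mathlib

/-!
# Compactly supported symplectic and Hamiltonian diffeomorphisms: definitions
-/

open scoped Manifold ContDiff Topology
open Set Filter

noncomputable section

namespace Pool.Agent.H521Z.Flux

variable {E : Type} [NormedAddCommGroup E] [NormedSpace ℝ E] {H : Type} [TopologicalSpace H]
  {I : ModelWithCorners ℝ E H} {M : Type} [TopologicalSpace M] [ChartedSpace H M]

variable (I M) in
/-- Fields of continuous bilinear forms on the tangent spaces of `M`. -/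
abbrev BilinField : Type := (x : M) → TangentSpace I x →L[ℝ] TangentSpace I x →L[ℝ] ℝ

/-- The expression of `η` in the preferred chart at `x₀`: its pullback to the model vector space
under the inverse of the chart. -/
def formInChart (η : BilinField I M) (x₀ : M) (y : E) : E →L[ℝ] E →L[ℝ] ℝ :=
  let b : E →L[ℝ] E →L[ℝ] ℝ := η ((extChartAt I x₀).symm y)
  let D : E →L[ℝ] E := mfderiv 𝓘(ℝ, E) I (extChartAt I x₀).symm y
  b.bilinearComp D D

/-- A symplectic form: alternating and nondegenerate at each point, and smooth and closed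
(`dη = 0`) in all charts. -/
structure IsSymplecticForm (η : BilinField I M) : Prop where
  alternating : ∀ (x : M) (v : TangentSpace I x), η x v v = 0
  nondegenerate : ∀ (x : M) (v : TangentSpace I x), (∀ w, η x v w = 0) → v = 0
  smooth : ∀ x₀ : M, ContDiffOn ℝ ∞ (formInChart η x₀) (extChartAt I x₀).target
  closed : ∀ x₀ : M, ∀ y ∈ (extChartAt I x₀).target, ∀ a b c : E,
    fderiv ℝ (formInChart η x₀) y a b c + fderiv ℝ (formInChart η x₀) y b c a
      + fderiv ℝ (formInChart η x₀) y c a b = 0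

/-- `φ` is a symplectomorphism of `(M, η)` (a smooth diffeomorphism with `φ^* η = η`) which is the
identity outside `K`. -/
structure IsSymplectoSupp (η : BilinField I M) (K : Set M) (φ : M → M) : Prop where
  smooth : ContMDiff I I ∞ φ
  inverse : ∃ χ : M → M, ContMDiff I I ∞ χ ∧ (∀ x, χ (φ x) = x) ∧ ∀ x, φ (χ x) = x
  symplectic : ∀ (x : M) (v w : TangentSpace I x),
    η (φ x) (mfderiv I I φ x v) (mfderiv I I φ x w) = η x v w
  support : ∀ x, x ∉ K → φ x = x

/-- `Symp_{c,0}(M, η)`: the time-one maps of the smooth isotopies `Φ t`, `t ∈ [0, 1]`, starting at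
the identity, through symplectomorphisms all supported in one compact set. -/
def SympC0 (η : BilinField I M) : Set (M → M) :=
  {ψ | ∃ K : Set M, IsCompact K ∧ ∃ Φ : ℝ → M → M,
    ContMDiffOn (𝓘(ℝ, ℝ).prod I) I ∞ (fun p : ℝ × M => Φ p.1 p.2) (Icc (0 : ℝ) 1 ×ˢ univ) ∧
    (∀ t ∈ Icc (0 : ℝ) 1, IsSymplectoSupp η K (Φ t)) ∧ (∀ x, Φ 0 x = x) ∧ ∀ x, Φ 1 x = ψ x}

/-- `Ham_c(M, η)`: the time-one maps of the (smooth) flows `Φ t`, `t ∈ [0, 1]`, of the
time-dependent vector fields `X_t` with `ι(X_t) η = dh_t`, where `h : [0, 1] × M → ℝ` is smooth and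
vanishes outside `[0, 1] × K` for a compact set `K`. -/
def HamC (η : BilinField I M) : Set (M → M) :=
  {ψ | ∃ K : Set M, IsCompact K ∧ ∃ (h : ℝ → M → ℝ) (Φ : ℝ → M → M),
    ContMDiffOn (𝓘(ℝ, ℝ).prod I) 𝓘(ℝ, ℝ) ∞ (fun p : ℝ × M => h p.1 p.2)
      (Icc (0 : ℝ) 1 ×ˢ univ) ∧
    (∀ t ∈ Icc (0 : ℝ) 1, ∀ x, x ∉ K → h t x = 0) ∧
    ContMDiffOn (𝓘(ℝ, ℝ).prod I) I ∞ (fun p : ℝ × M => Φ p.1 p.2) (Icc (0 : ℝ) 1 ×ˢ univ) ∧
    (∀ x, Φ 0 x = x) ∧ (∀ x, Φ 1 x = ψ x) ∧
    ∀ t ∈ Icc (0 : ℝ) 1, ∀ x : M, ∃ X : TangentSpace I (Φ t x),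
      HasMFDerivWithinAt 𝓘(ℝ, ℝ) I (fun s => Φ s x) (Icc (0 : ℝ) 1) t
        ((1 : ℝ →L[ℝ] ℝ).smulRight X) ∧
      ∀ w : TangentSpace I (Φ t x), η (Φ t x) X w = mvfderiv I (h t) (Φ t x) w}

/-- `φ n → ψ` in the `C⁰` topology: all the maps are the identity outside one compact set, and
`d (φ n x, ψ x) → 0` uniformly in `x` for every continuous function `d` on `M × M` vanishing on the
diagonal (in particular for the distance of any Riemannian metric on a connected manifold). -/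
def C0Tendsto (φ : ℕ → M → M) (ψ : M → M) : Prop :=
  (∃ K : Set M, IsCompact K ∧ (∀ n x, x ∉ K → φ n x = x) ∧ ∀ x, x ∉ K → ψ x = x) ∧
    ∀ d : M × M → ℝ, Continuous d → (∀ x, d (x, x) = 0) →
      ∀ ε > 0, ∀ᶠ n in atTop, ∀ x, |d (φ n x, ψ x)| < ε

end Pool.Agent.H521Z.Flux
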