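import Pool.Agent.H521Z.Flux.Amb

/-!
# Areas of squares in the product of spheres
-/

open scoped ContDiff Topology
open Set Filter Real

noncomputable section

namespace Pool.Agent.H521Z.Flux

section second

variable {A B : Type} [NormedAddCommGroup A] [NormedSpace ℝ A] [NormedAddCommGroup B]
  [NormedSpace ℝ B]

lemma hd_first {f : A → B} {p : A} (hf : ContDiffAt ℝ ∞ f p) {γ : ℝ → A} {e : A} (h0 : γ 0 = p)
    (hγ : HasDerivAt γ e 0) : HasDerivAt (fun s => f (γ s)) (fderiv ℝ f p e) 0 := by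
  subst h0
  exact (hf.differentiableAt (by simp)).hasFDerivAt.comp_hasDerivAt (0 : ℝ) hγ

lemma contDiffAt_fderiv {f : A → B} {p : A} (hf : ContDiffAt ℝ ∞ f p) :
    ContDiffAt ℝ ∞ (fderiv ℝ f) p :=
  hf.fderiv_right (m := ∞) (by simp)

lemma contDiffAt_fderiv_apply {f : A → B} {p : A} (hf : ContDiffAt ℝ ∞ f p) (e : A) :
    ContDiffAt ℝ ∞ (fun q => fderiv ℝ f q e) p :=
  (contDiffAt_fderiv hf).clm_apply contDiffAt_const

lemma hd_second {f : A → B} {p : A} (hf : ContDiffAt ℝ ∞ f p) {γ : ℝ → A} {e : A} (h0 : γ 0 = p)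
    (hγ : HasDerivAt γ e 0) (e' : A) :
    HasDerivAt (fun s => fderiv ℝ f (γ s) e') (fderiv ℝ (fderiv ℝ f) p e e') 0 := by
  have h1 := hd_first (contDiffAt_fderiv hf) h0 hγ
  simpa using h1.clm_apply (hasDerivAt_const (0 : ℝ) e')

lemma second_symm {f : A → B} {p : A} (hf : ContDiffAt ℝ ∞ f p) (e e' : A) :
    fderiv ℝ (fderiv ℝ f) p e e' = fderiv ℝ (fderiv ℝ f) p e' e :=
  (hf.isSymmSndFDerivAt (by
    rw [minSmoothness_of_isRCLikeNormedField]; exact WithTop.coe_le_coe.2 le_top)) e e'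

lemma tan_of_onS {f : A → W} {p : A} (hf : ContDiffAt ℝ ∞ f p) (hS : ∀ᶠ q in 𝓝 p, OnS (f q))
    (e : A) : Tan (f p) (fderiv ℝ f p e) := by
  intro i
  have h1 := hd_first hf (γ := fun s : ℝ => p + s • e) (by simp) (hasDerivAt_line p e)
  have h2 := hasDerivAt_pi.1 h1 i
  have h3 := hd_dot3 h2 h2
  have hc : Tendsto (fun s : ℝ => p + s • e) (𝓝 0) (𝓝 p) := by
    have := (hasDerivAt_line p e).continuousAt.tendsto
    simpa using this
  have h4 : (fun s : ℝ => dot3 (f (p + s • e) i) (f (p + s • e) i)) =ᶠ[𝓝 0] fun _ => 1 := by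
    filter_upwards [hc.eventually hS] with s hs using hs i
  have h5 := (h3.congr_of_eventuallyEq h4.symm).unique (hasDerivAt_const (0 : ℝ) (1 : ℝ))
  simp only [zero_smul, add_zero] at h5
  unfold dot3 at h5 ⊢
  linarith

lemma contDiffAt_det3 {X U V : A → V3} {p : A} (h1 : ContDiffAt ℝ ∞ X p) (h2 : ContDiffAt ℝ ∞ U p)
    (h3 : ContDiffAt ℝ ∞ V p) : ContDiffAt ℝ ∞ (fun q => det3 (X q) (U q) (V q)) p := by
  unfold det3
  fun_prop

lemma contDiffAt_dot3 {X U : A → V3} {p : A} (h1 : ContDiffAt ℝ ∞ X p) (h2 : ContDiffAt ℝ ∞ U p) :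
    ContDiffAt ℝ ∞ (fun q => dot3 (X q) (U q)) p := by
  unfold dot3
  fun_prop

lemma contDiffAt_Om_pull {f : A → W} {p : A} (hf : ContDiffAt ℝ ∞ f p) (b c : A) :
    ContDiffAt ℝ ∞ (fun q => Om (f q) (fderiv ℝ f q b) (fderiv ℝ f q c)) p := by
  unfold Om
  refine ContDiffAt.sum fun i _ => contDiffAt_const.mul ?_
  exact contDiffAt_det3 (contDiffAt_pi.1 hf i) (contDiffAt_pi.1 (contDiffAt_fderiv_apply hf b) i)
    (contDiffAt_pi.1 (contDiffAt_fderiv_apply hf c) i)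

lemma fderiv_Om_pull {f : A → W} {p : A} (hf : ContDiffAt ℝ ∞ f p) (a b c : A) :
    fderiv ℝ (fun q => Om (f q) (fderiv ℝ f q b) (fderiv ℝ f q c)) p a
      = Om (fderiv ℝ f p a) (fderiv ℝ f p b) (fderiv ℝ f p c)
        + Om (f p) (fderiv ℝ (fderiv ℝ f) p a b) (fderiv ℝ f p c)
        + Om (f p) (fderiv ℝ f p b) (fderiv ℝ (fderiv ℝ f) p a c) := by
  refine fderiv_of_curve ((contDiffAt_Om_pull hf b c).differentiableAt (by simp))
    fun γ h0 hγ => ?_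
  unfold Om
  rw [← Finset.sum_add_distrib, ← Finset.sum_add_distrib]
  refine HasDerivAt.fun_sum fun i _ => ?_
  have h1 := hasDerivAt_pi.1 (hd_first hf h0 hγ) i
  have h2 := hasDerivAt_pi.1 (hd_second hf h0 hγ b) i
  have h3 := hasDerivAt_pi.1 (hd_second hf h0 hγ c) i
  refine ((hd_det3 h1 h2 h3).const_mul (aa i)).congr_deriv ?_
  rw [h0]
  ring

/-- the pull-back of the area forms is closed -/
lemma closed_Om_pull {f : A → W} {p : A} (hf : ContDiffAt ℝ ∞ f p) (hS : ∀ᶠ q in 𝓝 p, OnS (f q))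
    (a b c : A) :
    fderiv ℝ (fun q => Om (f q) (fderiv ℝ f q b) (fderiv ℝ f q c)) p a
      + fderiv ℝ (fun q => Om (f q) (fderiv ℝ f q c) (fderiv ℝ f q a)) p b
      + fderiv ℝ (fun q => Om (f q) (fderiv ℝ f q a) (fderiv ℝ f q b)) p c = 0 := by
  rw [fderiv_Om_pull hf, fderiv_Om_pull hf, fderiv_Om_pull hf, second_symm hf b a,
    second_symm hf c a, second_symm hf c b]
  unfold Om
  simp only [← Finset.sum_add_distrib]
  refine Finset.sum_eq_zero fun i _ => ?_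
  have h := det3_tan (hS.self_of_nhds i) (tan_of_onS hf hS a i) (tan_of_onS hf hS b i)
    (tan_of_onS hf hS c i)
  unfold det3 at h ⊢
  linear_combination (3 * aa i) * h

end second

/-! ### the primitive of the difference of the area forms -/

lemma lam_UU {X Y U₁ U₂ : V3} (hX : dot3 X X = 1) (hY : dot3 Y Y = 1) (h1 : dot3 X U₁ = 0)
    (h2 : dot3 X U₂ = 0) :
    (1 + dot3 X Y) * (det3 U₁ Y U₂ - det3 U₂ Y U₁)
      - (det3 X Y U₂ * dot3 U₁ Y - det3 X Y U₁ * dot3 U₂ Y)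
      = -(1 + dot3 X Y) ^ 2 * det3 X U₁ U₂ := by
  obtain ⟨D, hD⟩ : ∃ D, D = det3 X U₁ U₂ := ⟨_, rfl⟩
  have c1 : U₁.2.1 * U₂.2.2 - U₁.2.2 * U₂.2.1 = D * X.1 := by
    rw [hD]; unfold det3 dot3 at *
    linear_combination (-(U₁.2.1 * U₂.2.2 - U₁.2.2 * U₂.2.1)) * hX
      + (X.2.1 * U₂.2.2 - X.2.2 * U₂.2.1) * h1 - (X.2.1 * U₁.2.2 - X.2.2 * U₁.2.1) * h2
  have c2 : U₁.2.2 * U₂.1 - U₁.1 * U₂.2.2 = D * X.2.1 := by
    rw [hD]; unfold det3 dot3 at *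
    linear_combination (-(U₁.2.2 * U₂.1 - U₁.1 * U₂.2.2)) * hX
      + (X.2.2 * U₂.1 - X.1 * U₂.2.2) * h1 - (X.2.2 * U₁.1 - X.1 * U₁.2.2) * h2
  have c3 : U₁.1 * U₂.2.1 - U₁.2.1 * U₂.1 = D * X.2.2 := by
    rw [hD]; unfold det3 dot3 at *
    linear_combination (-(U₁.1 * U₂.2.1 - U₁.2.1 * U₂.1)) * hX
      + (X.1 * U₂.2.1 - X.2.1 * U₂.1) * h1 - (X.1 * U₁.2.1 - X.2.1 * U₁.1) * h2
  rw [← hD]
  obtain ⟨c, hc⟩ : ∃ c, c = dot3 X Y := ⟨_, rfl⟩
  obtain ⟨y, hy⟩ : ∃ y, y = dot3 Y Y := ⟨_, rfl⟩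
  have e : (1 + dot3 X Y) * (det3 U₁ Y U₂ - det3 U₂ Y U₁)
      - (det3 X Y U₂ * dot3 U₁ Y - det3 X Y U₁ * dot3 U₂ Y)
      = (-2 * (1 + c) * Y.1 - (X.1 * y - Y.1 * c)) * (U₁.2.1 * U₂.2.2 - U₁.2.2 * U₂.2.1)
        + (-2 * (1 + c) * Y.2.1 - (X.2.1 * y - Y.2.1 * c)) * (U₁.2.2 * U₂.1 - U₁.1 * U₂.2.2)
        + (-2 * (1 + c) * Y.2.2 - (X.2.2 * y - Y.2.2 * c)) * (U₁.1 * U₂.2.1 - U₁.2.1 * U₂.1) := by
    rw [hc, hy]; unfold det3 dot3; ring
  rw [e, c1, c2, c3, ← hc]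
  rw [hY] at hy
  subst hy
  unfold dot3 at hc hX
  linear_combination (D * (2 + c)) * hc - D * hX

lemma lam_mixed {X Y U V : V3} (hX : dot3 X X = 1) (hY : dot3 Y Y = 1) (h1 : dot3 X U = 0)
    (h2 : dot3 Y V = 0) :
    (1 + dot3 X Y) * (det3 U Y V - det3 X V U)
      - (det3 X Y V * dot3 U Y - det3 X Y U * dot3 X V) = 0 := by
  have e : (1 + dot3 X Y) * (det3 U Y V - det3 X V U)
      - (det3 X Y V * dot3 U Y - det3 X Y U * dot3 X V)
      = det3 Y U V * (dot3 X X - 1) - det3 X U V * (dot3 Y Y - 1) + det3 X Y V * dot3 X U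
        - det3 X Y U * dot3 Y V := by
    unfold det3 dot3; ring
  rw [e, hX, hY, h1, h2]
  ring

lemma lam_id {X Y U₁ U₂ V₁ V₂ : V3} (hX : dot3 X X = 1) (hY : dot3 Y Y = 1) (h1 : dot3 X U₁ = 0)
    (h2 : dot3 X U₂ = 0) (h3 : dot3 Y V₁ = 0) (h4 : dot3 Y V₂ = 0) :
    (1 + dot3 X Y) * (det3 U₁ Y (U₂ + V₂) + det3 X V₁ (U₂ + V₂) - det3 U₂ Y (U₁ + V₁)
        - det3 X V₂ (U₁ + V₁))
      - (det3 X Y (U₂ + V₂) * (dot3 U₁ Y + dot3 X V₁) - det3 X Y (U₁ + V₁) * (dot3 U₂ Y + dot3 X V₂))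
      = (1 + dot3 X Y) ^ 2 * (det3 Y V₁ V₂ - det3 X U₁ U₂) := by
  have a1 := lam_UU hX hY h1 h2
  have a2 := lam_UU hY hX h3 h4
  have a3 := lam_mixed hX hY h1 h4
  have a4 := lam_mixed hX hY h2 h3
  unfold det3 dot3 at *
  simp only [Prod.fst_add, Prod.snd_add]
  linear_combination a1 - a2 + a3 - a4

/-- the primitive evaluated on a pair of maps -/
def Lf (f g : ℝ × ℝ → W) (e p : ℝ × ℝ) : ℝ :=
  ∑ i, aa i * (det3 (f p i) (g p i) (fderiv ℝ f p e i + fderiv ℝ g p e i)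
    / (1 + dot3 (f p i) (g p i)))

lemma contDiffAt_Lf {f g : ℝ × ℝ → W} {p : ℝ × ℝ} (hf : ContDiffAt ℝ ∞ f p)
    (hg : ContDiffAt ℝ ∞ g p) (hn : ∀ i, 1 + dot3 (f p i) (g p i) ≠ 0) (e : ℝ × ℝ) :
    ContDiffAt ℝ ∞ (Lf f g e) p := by
  unfold Lf
  refine ContDiffAt.sum fun i _ => contDiffAt_const.mul ?_
  have f1 := contDiffAt_pi.1 hf i
  have g1 := contDiffAt_pi.1 hg i
  exact (contDiffAt_det3 f1 g1 ((contDiffAt_pi.1 (contDiffAt_fderiv_apply hf e) i).add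
    (contDiffAt_pi.1 (contDiffAt_fderiv_apply hg e) i))).div
    (contDiffAt_const.add (contDiffAt_dot3 f1 g1)) (hn i)

lemma fderiv_Lf {f g : ℝ × ℝ → W} {p : ℝ × ℝ} (hf : ContDiffAt ℝ ∞ f p)
    (hg : ContDiffAt ℝ ∞ g p) (hn : ∀ i, 1 + dot3 (f p i) (g p i) ≠ 0) (e e' : ℝ × ℝ) :
    fderiv ℝ (Lf f g e) p e' = ∑ i, aa i *
      (((det3 (fderiv ℝ f p e' i) (g p i) (fderiv ℝ f p e i + fderiv ℝ g p e i)
        + det3 (f p i) (fderiv ℝ g p e' i) (fderiv ℝ f p e i + fderiv ℝ g p e i)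
        + det3 (f p i) (g p i) (fderiv ℝ (fderiv ℝ f) p e' e i + fderiv ℝ (fderiv ℝ g) p e' e i))
          * (1 + dot3 (f p i) (g p i))
        - det3 (f p i) (g p i) (fderiv ℝ f p e i + fderiv ℝ g p e i)
          * (dot3 (fderiv ℝ f p e' i) (g p i) + dot3 (f p i) (fderiv ℝ g p e' i)))
        / (1 + dot3 (f p i) (g p i)) ^ 2) := by
  refine fderiv_of_curve ((contDiffAt_Lf hf hg hn e).differentiableAt (by simp))
    fun γ h0 hγ => ?_
  unfold Lf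
  refine HasDerivAt.fun_sum fun i _ => ?_
  have h1 := hasDerivAt_pi.1 (hd_first hf h0 hγ) i
  have h2 := hasDerivAt_pi.1 (hd_first hg h0 hγ) i
  have h3 := hasDerivAt_pi.1 (hd_second hf h0 hγ e) i
  have h4 := hasDerivAt_pi.1 (hd_second hg h0 hγ e) i
  subst h0
  exact ((hd_det3 h1 h2 (h3.add h4)).div ((hd_dot3 h1 h2).const_add 1) (hn i)).const_mul (aa i)

lemma curl_Lf {f g : ℝ × ℝ → W} {p : ℝ × ℝ} (hf : ContDiffAt ℝ ∞ f p)
    (hg : ContDiffAt ℝ ∞ g p) (hSf : ∀ q, OnS (f q)) (hSg : ∀ q, OnS (g q))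
    (hn : ∀ i, 1 + dot3 (f p i) (g p i) ≠ 0) (e e' : ℝ × ℝ) :
    fderiv ℝ (Lf f g e') p e - fderiv ℝ (Lf f g e) p e'
      = Om (g p) (fderiv ℝ g p e) (fderiv ℝ g p e') - Om (f p) (fderiv ℝ f p e) (fderiv ℝ f p e') := by
  rw [fderiv_Lf hf hg hn, fderiv_Lf hf hg hn, second_symm hf e' e, second_symm hg e' e]
  unfold Om
  simp only [← Finset.sum_sub_distrib]
  refine Finset.sum_congr rfl fun i _ => ?_
  have h := lam_id (hSf p i) (hSg p i) (tan_of_onS hf (Eventually.of_forall hSf) e i)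
    (tan_of_onS hf (Eventually.of_forall hSf) e' i) (tan_of_onS hg (Eventually.of_forall hSg) e i)
    (tan_of_onS hg (Eventually.of_forall hSg) e' i)
  have := hn i
  field_simp
  linear_combination (aa i) * h

/-- A square in the product of spheres whose area form has the potential `k`. -/
structure Sq (f : ℝ × ℝ → W) (k : ℝ × ℝ → ℝ) : Prop where
  sm : ContDiff ℝ ∞ f
  smk : ContDiff ℝ ∞ k
  onS : ∀ p, OnS (f p)
  pot : ∀ p, Om (f p) (fderiv ℝ f p (1, 0)) (fderiv ℝ f p (0, 1)) = fderiv ℝ k p (0, 1)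

/-- Two squares with the same boundary, with difference of areas `s`. -/
structure Pair (f g : ℝ × ℝ → W) (s : ℝ) : Prop where
  ex : ∃ k l : ℝ × ℝ → ℝ, Sq f k ∧ Sq g l ∧ (∀ t, k (t, 0) = 0) ∧ (∀ t, k (t, 1) = 0) ∧
    (∀ t, l (t, 0) = 0) ∧ ∀ t, l (t, 1) = s
  b0 : ∀ u, f (0, u) = g (0, u)
  b1 : ∀ u, f (1, u) = g (1, u)
  c0 : ∀ t, f (t, 0) = g (t, 0)
  c1 : ∀ t, f (t, 1) = g (t, 1)

lemma fderiv_eq_of_vert {f g : ℝ × ℝ → W} (hf : ContDiff ℝ ∞ f) (hg : ContDiff ℝ ∞ g) {t : ℝ}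
    (h : ∀ u, f (t, u) = g (t, u)) (u : ℝ) :
    fderiv ℝ f (t, u) (0, 1) = fderiv ℝ g (t, u) (0, 1) := by
  have h1 := hd_first (hf.contDiffAt (x := (t, u))) (γ := fun s : ℝ => ((t, u) : ℝ × ℝ) + s • (0, 1))
    (by simp) (hasDerivAt_line _ _)
  have h2 := hd_first (hg.contDiffAt (x := (t, u))) (γ := fun s : ℝ => ((t, u) : ℝ × ℝ) + s • (0, 1))
    (by simp) (hasDerivAt_line _ _)
  refine h1.unique ?_
  convert h2 using 2 with s
  simpa using h (u + s)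

lemma fderiv_eq_of_hor {f g : ℝ × ℝ → W} (hf : ContDiff ℝ ∞ f) (hg : ContDiff ℝ ∞ g) {u : ℝ}
    (h : ∀ t, f (t, u) = g (t, u)) (t : ℝ) :
    fderiv ℝ f (t, u) (1, 0) = fderiv ℝ g (t, u) (1, 0) := by
  have h1 := hd_first (hf.contDiffAt (x := (t, u))) (γ := fun s : ℝ => ((t, u) : ℝ × ℝ) + s • (1, 0))
    (by simp) (hasDerivAt_line _ _)
  have h2 := hd_first (hg.contDiffAt (x := (t, u))) (γ := fun s : ℝ => ((t, u) : ℝ × ℝ) + s • (1, 0))
    (by simp) (hasDerivAt_line _ _)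
  refine h1.unique ?_
  convert h2 using 2 with s
  simpa using h (t + s)

/-- The difference of areas is locally constant. -/
theorem Pair.eq_of_close {f g f' g' : ℝ × ℝ → W} {s s' : ℝ} (P : Pair f g s) (P' : Pair f' g' s')
    (hf : ∀ p ∈ Icc (0 : ℝ) 1 ×ˢ Icc (0 : ℝ) 1, ∀ i, 1 + dot3 (f p i) (f' p i) ≠ 0)
    (hg : ∀ p ∈ Icc (0 : ℝ) 1 ×ˢ Icc (0 : ℝ) 1, ∀ i, 1 + dot3 (g p i) (g' p i) ≠ 0) : s = s' := by
  obtain ⟨k, l, Sf, Sg, k0, k1, l0, l1⟩ := P.ex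
  obtain ⟨k', l', Sf', Sg', k0', k1', l0', l1'⟩ := P'.ex
  set R : ℝ × ℝ → ℝ := fun p => Lf f f' (0, 1) p - Lf g g' (0, 1) p with hR
  set G : ℝ × ℝ → ℝ := fun p => -(Lf f f' (1, 0) p - Lf g g' (1, 0) p) - (k' p - k p) + (l' p - l p)
    with hG
  have dL : ∀ p ∈ Icc (0 : ℝ) 1 ×ˢ Icc (0 : ℝ) 1, ∀ e, DifferentiableAt ℝ (Lf f f' e) p ∧
      DifferentiableAt ℝ (Lf g g' e) p := fun p hp e =>
    ⟨(contDiffAt_Lf Sf.sm.contDiffAt Sf'.sm.contDiffAt (hf p hp) e).differentiableAt (by simp),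
      (contDiffAt_Lf Sg.sm.contDiffAt Sg'.sm.contDiffAt (hg p hp) e).differentiableAt (by simp)⟩
  have dk := Sf.smk.differentiable (by simp)
  have dk' := Sf'.smk.differentiable (by simp)
  have dl := Sg.smk.differentiable (by simp)
  have dl' := Sg'.smk.differentiable (by simp)
  have dR : ∀ p ∈ Icc (0 : ℝ) 1 ×ˢ Icc (0 : ℝ) 1, HasFDerivAt R
      (fderiv ℝ (Lf f f' (0, 1)) p - fderiv ℝ (Lf g g' (0, 1)) p) p := fun p hp =>
    (dL p hp _).1.hasFDerivAt.sub (dL p hp _).2.hasFDerivAt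
  have dG : ∀ p ∈ Icc (0 : ℝ) 1 ×ˢ Icc (0 : ℝ) 1, HasFDerivAt G
      (-(fderiv ℝ (Lf f f' (1, 0)) p - fderiv ℝ (Lf g g' (1, 0)) p)
        - (fderiv ℝ k' p - fderiv ℝ k p) + (fderiv ℝ l' p - fderiv ℝ l p)) p := fun p hp =>
    ((((dL p hp _).1.hasFDerivAt.sub (dL p hp _).2.hasFDerivAt).neg).sub
      ((dk' p).hasFDerivAt.sub (dk p).hasFDerivAt)).add ((dl' p).hasFDerivAt.sub (dl p).hasFDerivAt)
  have hdiv : ∀ p ∈ Icc (0 : ℝ) 1 ×ˢ Icc (0 : ℝ) 1,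
      fderiv ℝ R p (1, 0) + fderiv ℝ G p (0, 1) = 0 := by
    intro p hp
    rw [(dR p hp).fderiv, (dG p hp).fderiv]
    have c1 := curl_Lf Sf.sm.contDiffAt Sf'.sm.contDiffAt Sf.onS Sf'.onS (hf p hp) (1, 0) (0, 1)
    have c2 := curl_Lf Sg.sm.contDiffAt Sg'.sm.contDiffAt Sg.onS Sg'.onS (hg p hp) (1, 0) (0, 1)
    rw [Sf.pot, Sf'.pot] at c1
    rw [Sg.pot, Sg'.pot] at c2
    simp only [sub_apply, add_apply, neg_apply]
    linarith
  have hsub : Ioo (min (0 : ℝ) 1) (max (0 : ℝ) 1) ×ˢ Ioo (min (0 : ℝ) 1) (max (0 : ℝ) 1)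
      ⊆ Icc (0 : ℝ) 1 ×ˢ Icc (0 : ℝ) 1 := by
    simp only [zero_le_one, min_eq_left, max_eq_right]
    exact prod_mono Ioo_subset_Icc_self Ioo_subset_Icc_self
  have hu : uIcc (0 : ℝ) 1 = Icc 0 1 := uIcc_of_le zero_le_one
  have main := MeasureTheory.integral2_divergence_prod_of_hasFDerivAt R G (fderiv ℝ R) (fderiv ℝ G)
    0 0 1 1
    (by rw [hu]; exact fun p hp => (dR p hp).continuousAt.continuousWithinAt)
    (by rw [hu]; exact fun p hp => (dG p hp).continuousAt.continuousWithinAt)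
    (fun p hp => (dR p (hsub hp)).differentiableAt.hasFDerivAt)
    (fun p hp => (dG p (hsub hp)).differentiableAt.hasFDerivAt)
    (by
      rw [hu]
      exact (MeasureTheory.integrableOn_congr_fun hdiv (measurableSet_Icc.prod measurableSet_Icc)).2
        MeasureTheory.integrableOn_zero)
  have hl : (∫ x in (0 : ℝ)..1, ∫ y in (0 : ℝ)..1,
      fderiv ℝ R (x, y) (1, 0) + fderiv ℝ G (x, y) (0, 1)) = 0 := by
    have : EqOn (fun x : ℝ => ∫ y in (0 : ℝ)..1,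
        fderiv ℝ R (x, y) (1, 0) + fderiv ℝ G (x, y) (0, 1)) (fun _ => 0) (uIcc 0 1) := by
      intro x hx
      have : EqOn (fun y : ℝ => fderiv ℝ R (x, y) (1, 0) + fderiv ℝ G (x, y) (0, 1))
          (fun _ => 0) (uIcc 0 1) := by
        intro y hy
        rw [hu] at hx hy
        exact hdiv (x, y) ⟨hx, hy⟩
      simp only
      rw [intervalIntegral.integral_congr this]
      simp
    rw [intervalIntegral.integral_congr this]
    simp
  have R0 : ∀ u, R (0, u) = 0 := by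
    intro u
    simp only [hR, Lf]
    rw [P.b0, P'.b0, fderiv_eq_of_vert Sf.sm Sg.sm P.b0, fderiv_eq_of_vert Sf'.sm Sg'.sm P'.b0,
      sub_self]
  have R1 : ∀ u, R (1, u) = 0 := by
    intro u
    simp only [hR, Lf]
    rw [P.b1, P'.b1, fderiv_eq_of_vert Sf.sm Sg.sm P.b1, fderiv_eq_of_vert Sf'.sm Sg'.sm P'.b1,
      sub_self]
  have G0 : ∀ t, G (t, 0) = 0 := by
    intro t
    simp only [hG, Lf]
    rw [P.c0, P'.c0, fderiv_eq_of_hor Sf.sm Sg.sm P.c0, fderiv_eq_of_hor Sf'.sm Sg'.sm P'.c0,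
      k0, k0', l0, l0']
    simp
  have G1 : ∀ t, G (t, 1) = s' - s := by
    intro t
    simp only [hG, Lf]
    rw [P.c1, P'.c1, fderiv_eq_of_hor Sf.sm Sg.sm P.c1, fderiv_eq_of_hor Sf'.sm Sg'.sm P'.c1,
      k1, k1', l1, l1']
    simp
  rw [hl] at main
  simp only [R0, R1, G0, G1] at main
  simp at main
  linarith

lemma one_add_dot_ne {X Y : V3} (hX : dot3 X X = 1) (hY : dot3 Y Y = 1) (h : dist X Y < 1) :
    1 + dot3 X Y ≠ 0 := by
  rw [Prod.dist_eq, Prod.dist_eq, max_lt_iff, max_lt_iff, Real.dist_eq, Real.dist_eq,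
    Real.dist_eq, abs_lt, abs_lt, abs_lt] at h
  obtain ⟨⟨a1, a2⟩, ⟨b1, b2⟩, c1, c2⟩ := h
  unfold dot3 at *
  intro e
  nlinarith

/-- Not every real number is a difference of areas. -/
theorem not_forall_pair : ¬ ∀ s : ℝ, ∃ f g, Pair f g s := by
  intro h
  choose f g P using h
  let Q : Type := (Icc (0 : ℝ) 1 ×ˢ Icc (0 : ℝ) 1 : Set (ℝ × ℝ))
  have : CompactSpace Q := isCompact_iff_compactSpace.1 (isCompact_Icc.prod isCompact_Icc)
  have cf : ∀ s, Continuous (f s) ∧ Continuous (g s) := fun s => by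
    obtain ⟨k, l, Sf, Sg, -⟩ := (P s).ex
    exact ⟨Sf.sm.continuous, Sg.sm.continuous⟩
  have sf : ∀ s p, OnS (f s p) ∧ OnS (g s p) := fun s p => by
    obtain ⟨k, l, Sf, Sg, -⟩ := (P s).ex
    exact ⟨Sf.onS p, Sg.onS p⟩
  let F : ℝ → C(Q, W × W) := fun s =>
    ⟨fun q => (f s q.1, g s q.1), ((cf s).1.comp continuous_subtype_val).prodMk
      ((cf s).2.comp continuous_subtype_val)⟩
  have hsep : ∀ s s', dist (F s) (F s') < 1 → s = s' := by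
    intro s s' hd
    have hd' : ∀ q : Q, dist (f s q.1) (f s' q.1) < 1 ∧ dist (g s q.1) (g s' q.1) < 1 := by
      intro q
      have := lt_of_le_of_lt (ContinuousMap.dist_apply_le_dist (f := F s) (g := F s') q) hd
      rw [Prod.dist_eq, max_lt_iff] at this
      exact this
    refine (P s).eq_of_close (P s') (fun p hp i => ?_) (fun p hp i => ?_)
    · exact one_add_dot_ne ((sf s p).1 i) ((sf s' p).1 i)
        (lt_of_le_of_lt (dist_le_pi_dist _ _ i) (hd' ⟨p, hp⟩).1)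
    · exact one_add_dot_ne ((sf s p).2 i) ((sf s' p).2 i)
        (lt_of_le_of_lt (dist_le_pi_dist _ _ i) (hd' ⟨p, hp⟩).2)
  have hc : Countable ℝ := by
    refine Pairwise.countable_of_isOpen_disjoint (s := fun s : ℝ => Metric.ball (F s) (1 / 2))
      (fun s s' hne => ?_) (fun s => Metric.isOpen_ball)
      (fun s => Metric.nonempty_ball.2 (by norm_num))
    refine Metric.ball_disjoint_ball ?_
    by_contra hlt
    exact hne (hsep s s' (by linarith [not_le.1 hlt]))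
  exact not_countable hc

end Pool.Agent.H521Z.Flux
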