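import Pool.Agent.H521Z.Flux.Amb

/-!
# The Darboux chart at the north poles and the local symplectomorphism
-/

open scoped ContDiff Topology
open Set Filter Real

noncomputable section

namespace Pool.Agent.H521Z.Flux

def om0 (u v : Z) : ℝ := ∑ j, ((u j).1 * (v j).2 - (u j).2 * (v j).1)

def nn (z : Z) (j : Fin 4) : ℝ := (z j).1 ^ 2 + (z j).2 ^ 2

def nr (z : Z) : ℝ := ∑ j, nn z j

def QQ (z : Z) : ℝ :=
  (z 0).1 * (z 2).2 - (z 0).2 * (z 2).1 + ((z 1).1 * (z 3).2 - (z 1).2 * (z 3).1)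

lemma nn_nonneg (z : Z) (j : Fin 4) : 0 ≤ nn z j := by unfold nn; positivity

lemma nn_le (z : Z) (j : Fin 4) : nn z j ≤ nr z :=
  Finset.single_le_sum (f := nn z) (fun j _ => nn_nonneg z j) (Finset.mem_univ j)

/-! ### Lambert coordinates -/

def Psi (X : W) : Z := fun j =>
  (2 * aa j / √(2 * aa j * (1 + (X j).2.2)) * (X j).1,
    2 * aa j / √(2 * aa j * (1 + (X j).2.2)) * (X j).2.1)

def Phi (z : Z) : W := fun j =>
  (√(4 * aa j - nn z j) / (2 * aa j) * (z j).1, √(4 * aa j - nn z j) / (2 * aa j) * (z j).2,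
    1 - nn z j / (2 * aa j))

lemma nn_Psi {X : W} (h : OnS X) (j : Fin 4) (hj : -1 < (X j).2.2) :
    nn (Psi X) j = 2 * aa j * (1 - (X j).2.2) := by
  have ha := aa_pos j
  have hp : 0 < 2 * aa j * (1 + (X j).2.2) := by
    have : 0 < 1 + (X j).2.2 := by linarith
    positivity
  have hq := Real.sq_sqrt hp.le
  have hq0 : √(2 * aa j * (1 + (X j).2.2)) ≠ 0 := (Real.sqrt_pos.2 hp).ne'
  have h1 := h j
  unfold dot3 at h1
  simp only [nn, Psi]
  set q := √(2 * aa j * (1 + (X j).2.2))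
  field_simp
  rw [hq]
  linear_combination (2 * aa j) * h1

lemma nr_Psi {X : W} (h : OnS X) (hj : ∀ j, -1 < (X j).2.2) : nr (Psi X) = rr X :=
  Finset.sum_congr rfl fun j _ => nn_Psi h j (hj j)

lemma Phi_Psi {X : W} (h : OnS X) (hj : ∀ j, -1 < (X j).2.2) : Phi (Psi X) = X := by
  funext j
  have ha := aa_pos j
  have hp : 0 < 2 * aa j * (1 + (X j).2.2) := by
    have : 0 < 1 + (X j).2.2 := by linarith [hj j]
    positivity
  have hq0 : √(2 * aa j * (1 + (X j).2.2)) ≠ 0 := (Real.sqrt_pos.2 hp).ne'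
  have e : 4 * aa j - nn (Psi X) j = 2 * aa j * (1 + (X j).2.2) := by
    rw [nn_Psi h j (hj j)]; ring
  refine Prod.ext ?_ (Prod.ext ?_ ?_)
  · simp only [Phi]
    rw [e]
    simp only [Psi]
    field_simp
  · simp only [Phi]
    rw [e]
    simp only [Psi]
    field_simp
  · simp only [Phi]
    rw [nn_Psi h j (hj j)]
    field_simp
    ring

lemma Psi_Phi {z : Z} (h : ∀ j, nn z j < 4 * aa j) : Psi (Phi z) = z := by
  funext j
  have ha := aa_pos j
  have hp : 0 < 4 * aa j - nn z j := by linarith [h j]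
  have hq0 : √(4 * aa j - nn z j) ≠ 0 := (Real.sqrt_pos.2 hp).ne'
  have e : 2 * aa j * (1 + (Phi z j).2.2) = 4 * aa j - nn z j := by
    simp only [Phi]; field_simp; ring
  refine Prod.ext ?_ ?_
  · simp only [Psi]
    rw [e]
    simp only [Phi]
    generalize √(4 * aa j - nn z j) = q at hq0
    field_simp
  · simp only [Psi]
    rw [e]
    simp only [Phi]
    generalize √(4 * aa j - nn z j) = q at hq0
    field_simp

lemma onS_Phi {z : Z} (h : ∀ j, nn z j < 4 * aa j) : OnS (Phi z) := by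
  intro j
  have ha := aa_pos j
  have hp : 0 < 4 * aa j - nn z j := by linarith [h j]
  have hq := Real.sq_sqrt hp.le
  simp only [dot3, Phi]
  set q := √(4 * aa j - nn z j)
  have hn : nn z j = (z j).1 ^ 2 + (z j).2 ^ 2 := rfl
  field_simp
  rw [hq]
  linear_combination (nn z j - 4 * aa j) * hn

lemma rr_Phi (z : Z) : rr (Phi z) = nr z := by
  refine Finset.sum_congr rfl fun j _ => ?_
  have ha := aa_pos j
  simp only [Phi]
  field_simp
  ring

lemma contDiff_nn (j : Fin 4) : ContDiff ℝ ∞ (fun z : Z => nn z j) := by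
  unfold nn; fun_prop

lemma contDiff_nr : ContDiff ℝ ∞ nr := by
  unfold nr; exact ContDiff.sum fun j _ => contDiff_nn j

lemma contDiff_QQ : ContDiff ℝ ∞ QQ := by
  unfold QQ; fun_prop

lemma contDiffAt_Psi {X : W} (hj : ∀ j, -1 < (X j).2.2) : ContDiffAt ℝ ∞ Psi X := by
  rw [contDiffAt_pi]
  intro j
  have ha := aa_pos j
  have hp : 0 < 2 * aa j * (1 + (X j).2.2) := by
    have : 0 < 1 + (X j).2.2 := by linarith [hj j]
    positivity
  have h1 : ContDiffAt ℝ ∞ (fun X : W => √(2 * aa j * (1 + (X j).2.2))) X :=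
    ContDiffAt.sqrt (by fun_prop) hp.ne'
  have h2 : ContDiffAt ℝ ∞ (fun X : W => 2 * aa j / √(2 * aa j * (1 + (X j).2.2))) X :=
    contDiffAt_const.div h1 (Real.sqrt_pos.2 hp).ne'
  unfold Psi
  exact (h2.mul (by fun_prop)).prodMk (h2.mul (by fun_prop))

lemma contDiffAt_Phi {z : Z} (h : ∀ j, nn z j < 4 * aa j) : ContDiffAt ℝ ∞ Phi z := by
  rw [contDiffAt_pi]
  intro j
  have hp : 0 < 4 * aa j - nn z j := by linarith [h j]
  have hn := (contDiff_nn j).contDiffAt (x := z)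
  have h1 : ContDiffAt ℝ ∞ (fun z : Z => √(4 * aa j - nn z j)) z :=
    ContDiffAt.sqrt (contDiffAt_const.sub hn) hp.ne'
  have h2 : ContDiffAt ℝ ∞ (fun z : Z => √(4 * aa j - nn z j) / (2 * aa j)) z := h1.div_const _
  unfold Phi
  exact (h2.mul (by fun_prop)).prodMk ((h2.mul (by fun_prop)).prodMk
    (contDiffAt_const.sub (hn.div_const _)))

lemma om0_Psi {X U V : W} (h : OnS X) (hj : ∀ j, -1 < (X j).2.2) (hU : Tan X U) (hV : Tan X V) :
    om0 (fderiv ℝ Psi X U) (fderiv ℝ Psi X V) = Om X U V := by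
  have key : ∀ U : W, fderiv ℝ Psi X U = fun j =>
      (2 * aa j / √(2 * aa j * (1 + (X j).2.2)) * (U j).1
        - 2 * aa j ^ 2 / √(2 * aa j * (1 + (X j).2.2)) ^ 3 * (U j).2.2 * (X j).1,
       2 * aa j / √(2 * aa j * (1 + (X j).2.2)) * (U j).2.1
        - 2 * aa j ^ 2 / √(2 * aa j * (1 + (X j).2.2)) ^ 3 * (U j).2.2 * (X j).2.1) := by
    intro U
    refine fderiv_of_curve ((contDiffAt_Psi hj).differentiableAt (by simp)) fun γ h0 hγ => ?_
    rw [hasDerivAt_pi]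
    intro j
    subst h0
    have ha := aa_pos j
    have hp : 0 < 2 * aa j * (1 + (γ 0 j).2.2) := by
      have : 0 < 1 + (γ 0 j).2.2 := by linarith [hj j]
      positivity
    have hq0 : √(2 * aa j * (1 + (γ 0 j).2.2)) ≠ 0 := (Real.sqrt_pos.2 hp).ne'
    have hi := hasDerivAt_pi.1 hγ j
    have h1 := (((hd2 (hd2 hi)).const_add 1).const_mul (2 * aa j)).sqrt hp.ne'
    have h2 := (hasDerivAt_const (0 : ℝ) (2 * aa j)).div h1 hq0
    refine ((h2.mul (hd1 hi)).prodMk (h2.mul (hd1 (hd2 hi)))).congr_deriv ?_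
    refine Prod.ext ?_ ?_ <;> simp only [Pi.div_apply] <;> field_simp <;> ring
  rw [key, key]
  unfold om0 Om
  refine Finset.sum_congr rfl fun j _ => ?_
  have ha := aa_pos j
  have hh : 0 < 1 + (X j).2.2 := by linarith [hj j]
  have hp : 0 < 2 * aa j * (1 + (X j).2.2) := by positivity
  have hq := Real.sq_sqrt hp.le
  have hq0 : √(2 * aa j * (1 + (X j).2.2)) ≠ 0 := (Real.sqrt_pos.2 hp).ne'
  have h1 := h j
  have h2 := hU j
  have h3 := hV j
  unfold dot3 at h1 h2 h3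
  simp only
  set q := √(2 * aa j * (1 + (X j).2.2))
  obtain ⟨x, hx⟩ : ∃ x, x = (X j).1 := ⟨_, rfl⟩
  obtain ⟨y, hy⟩ : ∃ y, y = (X j).2.1 := ⟨_, rfl⟩
  obtain ⟨z, hz⟩ : ∃ z, z = (X j).2.2 := ⟨_, rfl⟩
  obtain ⟨D, hD⟩ : ∃ D, D = det3 (X j) (U j) (V j) := ⟨_, rfl⟩
  have hA : (U j).1 * (V j).2.1 - (U j).2.1 * (V j).1 = z * D := by
    rw [hD, hz]
    unfold det3
    linear_combination (-((U j).1 * (V j).2.1 - (U j).2.1 * (V j).1)) * h1
      + ((X j).1 * (V j).2.1 - (X j).2.1 * (V j).1) * h2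
      - ((X j).1 * (U j).2.1 - (X j).2.1 * (U j).1) * h3
  have hB : (U j).2.2 * (x * (V j).2.1 - y * (V j).1) - (V j).2.2 * (x * (U j).2.1 - y * (U j).1)
      = (z ^ 2 - 1) * D := by
    have : D = z * ((U j).1 * (V j).2.1 - (U j).2.1 * (V j).1)
        - ((U j).2.2 * (x * (V j).2.1 - y * (V j).1)
          - (V j).2.2 * (x * (U j).2.1 - y * (U j).1)) := by
      rw [hD, hx, hy, hz]; unfold det3; ring
    rw [hA] at this
    linear_combination this
  rw [← hx, ← hy, ← hD]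
  rw [← hz] at hq hh
  have e : (2 * aa j / q * (U j).1 - 2 * aa j ^ 2 / q ^ 3 * (U j).2.2 * x)
      * (2 * aa j / q * (V j).2.1 - 2 * aa j ^ 2 / q ^ 3 * (V j).2.2 * y)
      - (2 * aa j / q * (U j).2.1 - 2 * aa j ^ 2 / q ^ 3 * (U j).2.2 * y)
      * (2 * aa j / q * (V j).1 - 2 * aa j ^ 2 / q ^ 3 * (V j).2.2 * x)
      = 4 * aa j ^ 2 / q ^ 2 * ((U j).1 * (V j).2.1 - (U j).2.1 * (V j).1)
        - 4 * aa j ^ 3 / (q ^ 2) ^ 2 * ((U j).2.2 * (x * (V j).2.1 - y * (V j).1)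
          - (V j).2.2 * (x * (U j).2.1 - y * (U j).1)) := by
    field_simp
    ring
  rw [e, hA, hB, hq]
  field_simp
  ring

/-! ### the local symplectomorphism -/

def iM : Z →L[ℝ] Z :=
  LinearMap.toContinuousLinearMap
    { toFun := fun z j => (-(z j).2, (z j).1)
      map_add' := by intro a b; ext i <;> simp <;> ring
      map_smul' := by intro c a; ext i <;> simp }

def BM : Z →L[ℝ] Z :=
  LinearMap.toContinuousLinearMap
    { toFun := fun z => ![-z 2, -z 3, z 0, z 1]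
      map_add' := by intro a b; funext i; fin_cases i <;> simp <;> abel
      map_smul' := by intro c a; funext i; fin_cases i <;> simp }

lemma iM_apply (z : Z) (j : Fin 4) : iM z j = (-(z j).2, (z j).1) := rfl
lemma BM_0 (z : Z) : BM z 0 = -z 2 := rfl
lemma BM_1 (z : Z) : BM z 1 = -z 3 := rfl
lemma BM_2 (z : Z) : BM z 2 = z 0 := rfl
lemma BM_3 (z : Z) : BM z 3 = z 1 := rfl

lemma iM_iM (z : Z) : iM (iM z) = -z := by
  funext j; simp [iM_apply]; rfl

lemma BM_BM (z : Z) : BM (BM z) = -z := by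
  funext j; fin_cases j <;> simp [BM_0, BM_1, BM_2, BM_3]

lemma iM_BM (z : Z) : iM (BM z) = BM (iM z) := by
  funext j; fin_cases j <;> simp [BM_0, BM_1, BM_2, BM_3, iM_apply]

def ph (α : ℝ) (z : Z) : Z := cos α • z + sin α • iM z
def jr (β : ℝ) (z : Z) : Z := cos β • z + sin β • BM z

lemma ph_ph (α β : ℝ) (z : Z) : ph α (ph β z) = ph (α + β) z := by
  simp only [ph, map_add, map_smul, iM_iM, cos_add, sin_add]
  module

lemma jr_jr (α β : ℝ) (z : Z) : jr α (jr β z) = jr (α + β) z := by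
  simp only [jr, map_add, map_smul, BM_BM, cos_add, sin_add]
  module

lemma jr_ph (α β : ℝ) (z : Z) : jr α (ph β z) = ph β (jr α z) := by
  simp only [jr, ph, map_add, map_smul, iM_BM]
  module

lemma ph_zero (z : Z) : ph 0 z = z := by simp [ph]
lemma jr_zero (z : Z) : jr 0 z = z := by simp [jr]

lemma nr_ph (α : ℝ) (z : Z) : nr (ph α z) = nr z := by
  have h := cos_sq_add_sin_sq α
  simp only [nr, nn, ph, Fin.sum_univ_four, Pi.add_apply, Pi.smul_apply, iM_apply, Prod.fst_add,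
    Prod.snd_add, Prod.smul_fst, Prod.smul_snd, smul_eq_mul]
  linear_combination ((z 0).1 ^ 2 + (z 0).2 ^ 2 + ((z 1).1 ^ 2 + (z 1).2 ^ 2)
    + ((z 2).1 ^ 2 + (z 2).2 ^ 2) + ((z 3).1 ^ 2 + (z 3).2 ^ 2)) * h

lemma nr_jr (α : ℝ) (z : Z) : nr (jr α z) = nr z := by
  have h := cos_sq_add_sin_sq α
  simp only [nr, nn, jr, Fin.sum_univ_four, Pi.add_apply, Pi.smul_apply, BM_0, BM_1, BM_2, BM_3,
    Prod.fst_add, Prod.snd_add, Prod.smul_fst, Prod.smul_snd, smul_eq_mul, Prod.fst_neg,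
    Prod.snd_neg]
  linear_combination ((z 0).1 ^ 2 + (z 0).2 ^ 2 + ((z 1).1 ^ 2 + (z 1).2 ^ 2)
    + ((z 2).1 ^ 2 + (z 2).2 ^ 2) + ((z 3).1 ^ 2 + (z 3).2 ^ 2)) * h

lemma QQ_ph (α : ℝ) (z : Z) : QQ (ph α z) = QQ z := by
  have h := cos_sq_add_sin_sq α
  simp only [QQ, ph, Pi.add_apply, Pi.smul_apply, iM_apply, Prod.fst_add,
    Prod.snd_add, Prod.smul_fst, Prod.smul_snd, smul_eq_mul]
  linear_combination ((z 0).1 * (z 2).2 - (z 0).2 * (z 2).1
    + ((z 1).1 * (z 3).2 - (z 1).2 * (z 3).1)) * h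

lemma QQ_jr (α : ℝ) (z : Z) : QQ (jr α z) = QQ z := by
  have h := cos_sq_add_sin_sq α
  simp only [QQ, jr, Pi.add_apply, Pi.smul_apply, BM_0, BM_1, BM_2, BM_3,
    Prod.fst_add, Prod.snd_add, Prod.smul_fst, Prod.smul_snd, smul_eq_mul, Prod.fst_neg,
    Prod.snd_neg]
  linear_combination ((z 0).1 * (z 2).2 - (z 0).2 * (z 2).1
    + ((z 1).1 * (z 3).2 - (z 1).2 * (z 3).1)) * h

lemma om0_ph (α : ℝ) (u v : Z) : om0 (ph α u) (ph α v) = om0 u v := by
  have h := cos_sq_add_sin_sq α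
  unfold om0
  refine Finset.sum_congr rfl fun j _ => ?_
  simp only [ph, Pi.add_apply, Pi.smul_apply, iM_apply, Prod.fst_add,
    Prod.snd_add, Prod.smul_fst, Prod.smul_snd, smul_eq_mul]
  linear_combination ((u j).1 * (v j).2 - (u j).2 * (v j).1) * h

lemma om0_jr (α : ℝ) (u v : Z) : om0 (jr α u) (jr α v) = om0 u v := by
  have h := cos_sq_add_sin_sq α
  simp only [om0, jr, Fin.sum_univ_four, Pi.add_apply, Pi.smul_apply, BM_0, BM_1, BM_2, BM_3,
    Prod.fst_add, Prod.snd_add, Prod.smul_fst, Prod.smul_snd, smul_eq_mul, Prod.fst_neg,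
    Prod.snd_neg]
  linear_combination ((u 0).1 * (v 0).2 - (u 0).2 * (v 0).1 + ((u 1).1 * (v 1).2 - (u 1).2 * (v 1).1)
    + ((u 2).1 * (v 2).2 - (u 2).2 * (v 2).1) + ((u 3).1 * (v 3).2 - (u 3).2 * (v 3).1)) * h

/-- the cut-off function -/
def rho (r : ℝ) : ℝ := smoothTransition (2 - 2 * r)

lemma contDiff_rho : ContDiff ℝ ∞ rho :=
  smoothTransition.contDiff.comp (by fun_prop)

lemma contDiff_rho' : ContDiff ℝ ∞ (deriv rho) := contDiff_rho.iterate_deriv 1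

lemma rho_of_lt {r : ℝ} (h : r < 1 / 2) : rho r = 1 ∧ deriv rho r = 0 := by
  have e : rho =ᶠ[𝓝 r] fun _ => 1 := by
    filter_upwards [Iio_mem_nhds h] with x hx
    exact smoothTransition.one_of_one_le (by simp only [mem_Iio] at hx; linarith)
  exact ⟨e.eq_of_nhds, by rw [e.deriv_eq]; simp⟩

lemma rho_of_gt {r : ℝ} (h : 1 < r) : rho r = 0 ∧ deriv rho r = 0 := by
  have e : rho =ᶠ[𝓝 r] fun _ => 0 := by
    filter_upwards [Ioi_mem_nhds h] with x hx
    exact smoothTransition.zero_of_nonpos (by simp only [mem_Ioi] at hx; linarith)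
  exact ⟨e.eq_of_nhds, by rw [e.deriv_eq]; simp⟩

def gg (s : ℝ) (z : Z) : Z := ph (-2 * s * deriv rho (nr z) * QQ z) (jr (s * rho (nr z)) z)

lemma nr_gg (s : ℝ) (z : Z) : nr (gg s z) = nr z := by rw [gg, nr_ph, nr_jr]

lemma QQ_gg (s : ℝ) (z : Z) : QQ (gg s z) = QQ z := by rw [gg, QQ_ph, QQ_jr]

lemma gg_neg (s : ℝ) (z : Z) : gg (-s) (gg s z) = z := by
  have : gg (-s) (gg s z) = ph (-2 * -s * deriv rho (nr (gg s z)) * QQ (gg s z))
    (jr (-s * rho (nr (gg s z))) (gg s z)) := rfl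
  rw [this, nr_gg, QQ_gg, gg, jr_ph, ph_ph, jr_jr]
  have e1 : -2 * -s * deriv rho (nr z) * QQ z + -2 * s * deriv rho (nr z) * QQ z = 0 := by ring
  have e2 : -s * rho (nr z) + s * rho (nr z) = 0 := by ring
  rw [e1, e2, jr_zero, ph_zero]

lemma gg_of_gt (s : ℝ) {z : Z} (h : 1 < nr z) : gg s z = z := by
  rw [gg, (rho_of_gt h).1, (rho_of_gt h).2]
  simp [ph_zero, jr_zero]

lemma gg_of_lt {z : Z} (h : nr z < 1 / 2) : gg (π / 2) z = BM z := by
  rw [gg, (rho_of_lt h).1, (rho_of_lt h).2]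
  simp [ph_zero, jr]

lemma contDiff_gg (s : ℝ) : ContDiff ℝ ∞ (gg s) := by
  have h1 : ContDiff ℝ ∞ (fun z : Z => -2 * s * deriv rho (nr z) * QQ z) :=
    (contDiff_const.mul (contDiff_rho'.comp contDiff_nr)).mul contDiff_QQ
  have h2 : ContDiff ℝ ∞ (fun z : Z => s * rho (nr z)) :=
    contDiff_const.mul (contDiff_rho.comp contDiff_nr)
  have h3 : ContDiff ℝ ∞ (fun z : Z => jr (s * rho (nr z)) z) :=
    (h2.cos.smul contDiff_id).add (h2.sin.smul BM.contDiff)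
  exact (h1.cos.smul h3).add (h1.sin.smul (iM.contDiff.comp h3))

lemma hd_ph {α : ℝ → ℝ} {v : ℝ → Z} {α' : ℝ} {v' : Z} {s : ℝ} (h1 : HasDerivAt α α' s)
    (h2 : HasDerivAt v v' s) :
    HasDerivAt (fun s => ph (α s) (v s)) (ph (α s) (v' + α' • iM (v s))) s := by
  have h3 : HasDerivAt (fun s => iM (v s)) (iM v') s := iM.hasFDerivAt.comp_hasDerivAt s h2
  refine ((h1.cos.smul h2).add (h1.sin.smul h3)).congr_deriv ?_
  simp only [ph, map_add, map_smul, iM_iM]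
  module

lemma hd_jr {α : ℝ → ℝ} {v : ℝ → Z} {α' : ℝ} {v' : Z} {s : ℝ} (h1 : HasDerivAt α α' s)
    (h2 : HasDerivAt v v' s) :
    HasDerivAt (fun s => jr (α s) (v s)) (jr (α s) (v' + α' • BM (v s))) s := by
  have h3 : HasDerivAt (fun s => BM (v s)) (BM v') s := BM.hasFDerivAt.comp_hasDerivAt s h2
  refine ((h1.cos.smul h2).add (h1.sin.smul h3)).congr_deriv ?_
  simp only [jr, map_add, map_smul, BM_BM]
  module

/-- derivative of `nr` -/
def dnr (z u : Z) : ℝ := ∑ j, 2 * ((z j).1 * (u j).1 + (z j).2 * (u j).2)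

/-- derivative of `QQ` -/
def dQQ (z u : Z) : ℝ :=
  (u 0).1 * (z 2).2 + (z 0).1 * (u 2).2 - ((u 0).2 * (z 2).1 + (z 0).2 * (u 2).1)
    + ((u 1).1 * (z 3).2 + (z 1).1 * (u 3).2 - ((u 1).2 * (z 3).1 + (z 1).2 * (u 3).1))

lemma hd_nr {v : ℝ → Z} {v' : Z} {s : ℝ} (h2 : HasDerivAt v v' s) :
    HasDerivAt (fun s => nr (v s)) (dnr (v s) v') s := by
  unfold nr nn dnr
  refine HasDerivAt.fun_sum fun j _ => ?_
  have hi := hasDerivAt_pi.1 h2 j
  refine (((hd1 hi).pow 2).add ((hd2 hi).pow 2)).congr_deriv ?_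
  simp
  ring

lemma hd_QQ {v : ℝ → Z} {v' : Z} {s : ℝ} (h2 : HasDerivAt v v' s) :
    HasDerivAt (fun s => QQ (v s)) (dQQ (v s) v') s := by
  unfold QQ dQQ
  have h0 := hasDerivAt_pi.1 h2 0
  have h1 := hasDerivAt_pi.1 h2 1
  have h3 := hasDerivAt_pi.1 h2 3
  have h2 := hasDerivAt_pi.1 h2 2
  exact ((((hd1 h0).mul (hd2 h2)).sub ((hd2 h0).mul (hd1 h2))).add
    (((hd1 h1).mul (hd2 h3)).sub ((hd2 h1).mul (hd1 h3))))

lemma fderiv_gg (s : ℝ) (z u : Z) : fderiv ℝ (gg s) z u =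
    ph (-2 * s * deriv rho (nr z) * QQ z) (jr (s * rho (nr z))
      (u + (s * (deriv rho (nr z) * dnr z u)) • BM z
        + (-2 * s * (deriv (deriv rho) (nr z) * dnr z u) * QQ z
          + -2 * s * deriv rho (nr z) * dQQ z u) • iM z)) := by
  refine fderiv_of_curve (((contDiff_gg s).differentiable (by simp)) z) fun γ h0 hγ => ?_
  subst h0
  have r1 : HasDerivAt rho (deriv rho (nr (γ 0))) (nr (γ 0)) :=
    ((contDiff_rho.differentiable (by simp)) _).hasDerivAt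
  have r2 : HasDerivAt (deriv rho) (deriv (deriv rho) (nr (γ 0))) (nr (γ 0)) :=
    ((contDiff_rho'.differentiable (by simp)) _).hasDerivAt
  have a1 := ((r2.comp (0 : ℝ) (hd_nr hγ)).const_mul (-2 * s)).mul (hd_QQ hγ)
  have a2 := (r1.comp (0 : ℝ) (hd_nr hγ)).const_mul s
  have a3 := hd_ph a1 (hd_jr a2 hγ)
  refine a3.congr_deriv ?_
  simp only [Function.comp, Pi.mul_apply]
  congr 1
  simp only [jr, map_add, map_smul, iM_BM]
  module

lemma om0_gg (s : ℝ) (z u v : Z) :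
    om0 (fderiv ℝ (gg s) z u) (fderiv ℝ (gg s) z v) = om0 u v := by
  rw [fderiv_gg, fderiv_gg, om0_ph, om0_jr]
  have key : ∀ (b a b' a' : ℝ), om0 (u + b • BM z + a • iM z) (v + b' • BM z + a' • iM z)
      = om0 u v - b' * dQQ z u + a' * dnr z u / 2 + b * dQQ z v - a * dnr z v / 2 := by
    intro b a b' a'
    simp only [om0, dQQ, dnr, Fin.sum_univ_four, Pi.add_apply, Pi.smul_apply, BM_0, BM_1, BM_2,
      BM_3, iM_apply, Prod.fst_add, Prod.snd_add, Prod.smul_fst, Prod.smul_snd, smul_eq_mul,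
      Prod.fst_neg, Prod.snd_neg]
    ring
  rw [key]
  ring

end Pool.Agent.H521Z.Flux
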