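import Pool.Agent.H521Z.Flux.Maps

/-!
# The group of compactly supported Hamiltonian diffeomorphisms is not closed
-/

open scoped Manifold ContDiff Topology
open Set Filter Real Metric TopologicalSpace

noncomputable section

namespace Pool.Agent.H521Z.Flux

/-! ### the conjugating map -/

def GG (x : MM) : MM := Gp (π / 2) (tau (Gp (π / 2) (tau x)))

def GI (x : MM) : MM := tau (Gp (-(π / 2)) (tau (Gp (-(π / 2)) x)))

lemma GI_GG (x : MM) : GI (GG x) = x := by
  rw [GI, GG, Gp_neg, tau_tau, Gp_neg, tau_tau]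

lemma Gp_neg' (s : ℝ) (x : MM) : Gp s (Gp (-s) x) = x := by
  simpa using Gp_neg (-s) x

lemma GG_GI (x : MM) : GG (GI x) = x := by
  rw [GI, GG, tau_tau, Gp_neg', tau_tau, Gp_neg']

lemma contMDiff_GG : ContMDiff IN IN ∞ GG :=
  (contMDiff_Gp _).comp (contMDiff_tau.comp ((contMDiff_Gp _).comp contMDiff_tau))

lemma contMDiff_GI : ContMDiff IN IN ∞ GI :=
  contMDiff_tau.comp ((contMDiff_Gp _).comp (contMDiff_tau.comp (contMDiff_Gp _)))

lemma pres_GG : Pres om GG :=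
  (pres_Gp _).comp (pres_tau.comp ((pres_Gp _).comp pres_tau (contMDiff_Gp _) contMDiff_tau)
    contMDiff_tau ((contMDiff_Gp _).comp contMDiff_tau)) (contMDiff_Gp _)
    (contMDiff_tau.comp ((contMDiff_Gp _).comp contMDiff_tau))

lemma pres_GI : Pres om GI :=
  pres_tau.comp ((pres_Gp _).comp (pres_tau.comp (pres_Gp _) contMDiff_tau (contMDiff_Gp _))
    (contMDiff_Gp _) (contMDiff_tau.comp (contMDiff_Gp _))) contMDiff_tau
    ((contMDiff_Gp _).comp (contMDiff_tau.comp (contMDiff_Gp _)))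

lemma fam_GG : Fam om (fun _ => GG) (fun _ => GI) :=
  ⟨smM_const contMDiff_GG, smM_const contMDiff_GI, fun _ => GI_GG, fun _ => GG_GI,
    fun _ => pres_GG⟩

lemma fam_GI : Fam om (fun _ => GI) (fun _ => GG) :=
  ⟨smM_const contMDiff_GI, smM_const contMDiff_GG, fun _ => GG_GI, fun _ => GI_GG,
    fun _ => pres_GI⟩

lemma rp_GG (x : MM) : rp (GG x) = rp x := by
  rw [GG, rp_Gp, rp_tau, rp_Gp, rp_tau]; ring

lemma rp_GI (x : MM) : rp (GI x) = rp x := by
  rw [GI, rp_tau, rp_Gp, rp_tau, rp_Gp]; ring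

/-! ### the circle actions -/

def ww (m n : ℤ) : Fin 4 → ℤ := ![m, n, -m, -n]

def fw (m n : ℤ) (i : Fin 4) (z : ℝ) : ℝ := aa i * (ww m n i * (2 * π)) * (z - 1)

def thw (m n : ℤ) (i : Fin 4) (_ : ℝ) : ℝ := ww m n i * (2 * π)

lemma contDiff_fw (m n : ℤ) (i : Fin 4) : ContDiff ℝ ∞ (fw m n i) := by
  unfold fw; fun_prop

lemma contDiff_thw (m n : ℤ) (i : Fin 4) : ContDiff ℝ ∞ (thw m n i) := contDiff_const

lemma hasDerivAt_fw (m n : ℤ) (i : Fin 4) (z : ℝ) : HasDerivAt (fw m n i) (aa i * thw m n i z) z := by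
  have := ((hasDerivAt_id z).sub_const 1).const_mul (aa i * (ww m n i * (2 * π)))
  exact this.congr_deriv (mul_one _)

lemma hamT_Phi (m n : ℤ) (z : Z) :
    hamT (fw m n) (Phi z) = -π * (m * nn z 0 + n * nn z 1 - m * nn z 2 - n * nn z 3) := by
  have e : ∀ i, fw m n i (Phi z i).2.2 = -π * (ww m n i * nn z i) := fun i => by
    have := aa_pos i
    simp only [fw, Phi]
    field_simp
    ring
  simp only [hamT, e, Fin.sum_univ_four, ww]
  simp
  ring

lemma hamT_GA (m n : ℤ) {X : W} (hS : OnS X) (h : rr X < 1 / 2) :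
    hamT (fw m n) (GA (π / 2) X) = -hamT (fw m n) X := by
  have h2 : rr X < 2 := by linarith
  rw [GA_of_lt _ h2, gg_of_lt (by rw [nr_Psi hS (h_gt hS h2)]; exact h), hamT_Phi]
  conv_rhs => rw [← Phi_Psi hS (h_gt hS h2), hamT_Phi]
  simp only [nn, BM_0, BM_1, BM_2, BM_3, Prod.fst_neg, Prod.snd_neg]
  ring

lemma hamT_flip (m n : ℤ) (X : W) :
    hamT (fw m n) (flip X) = -(4 * π * (m + n * √2)) - hamT (fw m n) X := by
  simp only [hamT, fw, flip_apply, Fin.sum_univ_four, ww, aa]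
  simp
  ring

/-- the Hamiltonian of the circle action on the manifold -/
def hw (m n : ℤ) (x : MM) : ℝ := hamT (fw m n) (io x)

lemma hw_GG_p (m n : ℤ) {x : MM} (h : rp x < 1 / 2) : hw m n (GG x) = -hw m n x := by
  have := A4_ge
  rw [GG, Gp_of_gt _ (x := tau x) (by rw [rp_tau]; linarith), tau_tau, hw, io_Gp,
    hamT_GA m n (io_mem x).1 h, hw]

lemma hw_GG_q (m n : ℤ) {x : MM} (h : A4 - 1 / 2 < rp x) :
    hw m n (GG x) = -(8 * π * (m + n * √2)) - hw m n x := by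
  have := A4_ge
  rw [GG, Gp_of_gt _ (by rw [rp_tau, rp_Gp, rp_tau]; linarith), hw, io_tau, hamT_flip, io_Gp,
    hamT_GA m n (io_mem _).1 (show rp (tau x) < 1 / 2 by rw [rp_tau]; linarith), io_tau,
    hamT_flip, hw]
  ring

/-! ### the twists -/

def kap (z : ℝ) : ℝ := smoothTransition (1 / 2 - z)

lemma contDiff_kap : ContDiff ℝ ∞ kap := smoothTransition.contDiff.comp (by fun_prop)

lemma kap_of_gt {z : ℝ} (h : 1 / 2 < z) : kap z = 0 ∧ deriv kap z = 0 := by
  have e : kap =ᶠ[𝓝 z] fun _ => 0 := by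
    filter_upwards [Ioi_mem_nhds h] with x hx
    exact smoothTransition.zero_of_nonpos (by simp only [mem_Ioi] at hx; linarith)
  exact ⟨e.eq_of_nhds, by rw [e.deriv_eq]; simp⟩

lemma kap_of_lt {z : ℝ} (h : z < -(1 / 2)) : kap z = 1 ∧ deriv kap z = 0 := by
  have e : kap =ᶠ[𝓝 z] fun _ => 1 := by
    filter_upwards [Iio_mem_nhds h] with x hx
    exact smoothTransition.one_of_one_le (by simp only [mem_Iio] at hx; linarith)
  exact ⟨e.eq_of_nhds, by rw [e.deriv_eq]; simp⟩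

def del : Fin 4 → ℝ := ![1, 0, 0, 0]

def fk (s : ℝ) (i : Fin 4) (z : ℝ) : ℝ := del i * s * kap z

def thk (s : ℝ) (i : Fin 4) (z : ℝ) : ℝ := s * (del i * deriv kap z / aa i)

lemma contDiff_fk (s : ℝ) (i : Fin 4) : ContDiff ℝ ∞ (fk s i) := contDiff_const.mul contDiff_kap

lemma contDiff_thk (s : ℝ) (i : Fin 4) : ContDiff ℝ ∞ (thk s i) :=
  contDiff_const.mul ((contDiff_const.mul (contDiff_kap.iterate_deriv 1)).div_const _)

lemma hasDerivAt_fk (s : ℝ) (i : Fin 4) (z : ℝ) : HasDerivAt (fk s i) (aa i * thk s i z) z := by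
  have h := (((contDiff_kap.differentiable (by simp)) z).hasDerivAt).const_mul (del i * s)
  refine h.congr_deriv ?_
  have := aa_pos i
  simp only [thk]
  field_simp

lemma hamT_fk (s : ℝ) (X : W) : hamT (fk s) X = s * kap (X 0).2.2 := by
  simp [hamT, fk, del, Fin.sum_univ_four]

lemma h0_gt {x : MM} (h : rp x < 1 / 2) : 1 / 2 < (io x 0).2.2 := by
  have h1 := (io_mem x).1.term_le 0
  have h2 := aa_ge 0
  have h3 := (io_mem x).1.h_le 0
  unfold rp at h
  nlinarith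

lemma h0_lt {x : MM} (h : A4 - 1 / 2 < rp x) : (io x 0).2.2 < -(1 / 2) := by
  have h1 := (io_mem x).1.term_le' 0
  have h2 := aa_ge 0
  have h3 := (io_mem x).1.le_h 0
  unfold rp at h
  nlinarith

/-- the twist with flux `s` -/
def psi (s : ℝ) : MM → MM := TM (thk 1) s

lemma TM_thk (s t : ℝ) (x : MM) : TM (thk s) t x = psi (t * s) x := by
  apply io_injective
  rw [psi, io_TM, io_TM]
  funext i
  simp only [TT, thk]
  congr 1
  ring

def K0 : Set MM := {x | 1 / 2 ≤ rp x ∧ rp x ≤ A4 - 1 / 2}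

lemma isCompact_K0 : IsCompact K0 := by
  have h1 : IsCompact {x : NN | 1 / 2 ≤ rr (iN x) ∧ rr (iN x) ≤ A4 - 1 / 2} := by
    have h : Continuous fun x => rr (iN x) := contDiff_rr.continuous.comp contMDiff_iN.continuous
    exact ((isClosed_le continuous_const h).inter (isClosed_le h continuous_const)).isCompact
  refine Topology.IsInducing.subtypeVal.isCompact_preimage' h1 ?_
  intro x hx
  refine ⟨⟨x, ?_, ?_⟩, rfl⟩
  · intro e; have := hx.1; rw [e] at this; norm_num at this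
  · intro e; have := hx.2; rw [e] at this; linarith

lemma notMem_K0 {x : MM} (h : x ∉ K0) : rp x < 1 / 2 ∨ A4 - 1 / 2 < rp x := by
  by_contra h'
  rw [not_or, not_lt, not_lt] at h'
  exact h h'

lemma psi_of_notMem (s : ℝ) {x : MM} (h : x ∉ K0) : psi s x = x := by
  have hd : deriv kap (io x 0).2.2 = 0 := by
    rcases notMem_K0 h with h | h
    · exact (kap_of_gt (h0_gt h)).2
    · exact (kap_of_lt (h0_lt h)).2
  apply io_injective
  rw [psi, io_TM]
  funext i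
  have : thk 1 i (io x i).2.2 = 0 := by
    fin_cases i
    · simp only [thk]
      rw [show io x ⟨0, by norm_num⟩ = io x 0 from rfl, hd]
      simp
    all_goals simp [thk, del]
  simp only [TT, this, mul_zero, rot_zero]

theorem psi_mem_SympC0 (s : ℝ) : psi s ∈ SympC0 om := by
  have F := fam_TM (contDiff_thk 1)
  refine ⟨K0, isCompact_K0, fun t => TM (thk 1) (s * t), ?_, ?_, ?_, ?_⟩
  · exact (smM_TM (contDiff_thk 1) (a := fun t => s * t) (by fun_prop)).contMDiffOn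
  · intro t _
    exact ⟨F.sm.slice _, ⟨_, F.smi.slice (s * t), F.li _, F.ri _⟩, F.sy _,
      fun x hx => psi_of_notMem _ hx⟩
  · intro x
    simp only [mul_zero, TM_zero]
  · intro x
    simp only [mul_one, psi]

theorem psi_mem_HamC (m n : ℤ) : psi (8 * π * (m + n * √2)) ∈ HamC om := by
  set γ : ℝ := 8 * π * (m + n * √2) with hγ
  let f' : Fin 4 → ℝ → ℝ := fun i z => fw m n i z + fk γ i z
  let θ' : Fin 4 → ℝ → ℝ := fun i z => thw m n i z + thk γ i z
  have hf' : ∀ i, ContDiff ℝ ∞ (f' i) := fun i => (contDiff_fw m n i).add (contDiff_fk γ i)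
  have hθ' : ∀ i, ContDiff ℝ ∞ (θ' i) := fun i => (contDiff_thw m n i).add (contDiff_thk γ i)
  have g0 := gen_TM hθ' hf' fun i z => by
    refine ((hasDerivAt_fw m n i z).add (hasDerivAt_fk γ i z)).deriv.trans ?_
    simp only [θ']; ring
  have g1 := gen_TM (contDiff_thw m n) (contDiff_fw m n) fun i z => (hasDerivAt_fw m n i z).deriv
  have s0 : SmF IN (fun (_ : ℝ) (_ : MM) => (0 : ℝ)) := contMDiff_const
  have F0 := fam_TM hθ'
  have F1 := fam_TM (contDiff_thw m n)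
  have sA := s0.add ((smF_hamT hf').comp fam_GI.smi)
  have gA := Gen.comp fam_GI F0.sm s0 (smF_hamT hf') (gen_const om GI) g0
  have mA := fam_GI.sm.comp F0.sm
  have sB := (smF_hamT (contDiff_fw m n)).add (sA.comp F1.smi)
  have gB := Gen.comp F1 mA (smF_hamT (contDiff_fw m n)) sA g1 gA
  have mB := F1.sm.comp mA
  have sC := s0.add (sB.comp fam_GG.smi)
  have gC := Gen.comp fam_GG mB s0 sB (gen_const om GG) gB
  have mC := fam_GG.sm.comp mB
  refine mem_HamC_of_gen isCompact_K0 sC mC gC ?_ ?_ ?_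
  · intro t x hx
    obtain ⟨y, hy⟩ : ∃ y, y = TM (thw m n) (-t) (GI x) := ⟨_, rfl⟩
    have hr : rp y = rp x := by rw [hy, rp_TM, rp_GI]
    have e1 : hw m n y = hw m n (GI x) := by rw [hy, hw, io_TM]; rfl
    have e2 : hamT f' (io (GG y)) = hw m n (GG y) + γ * kap (io (GG y) 0).2.2 := by
      rw [← hamT_fk, hw, hamT, hamT, hamT, ← Finset.sum_add_distrib]
    show 0 + (hw m n (GI x) + (0 + hamT f' (io (GG (TM (thw m n) (-t) (GI x)))))) = 0
    rw [← hy, e2, ← e1]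
    rcases notMem_K0 hx with h | h
    · rw [hw_GG_p m n (by rw [hr]; exact h), (kap_of_gt (h0_gt (by rw [rp_GG, hr]; exact h))).1]
      ring
    · rw [hw_GG_q m n (by rw [hr]; exact h), (kap_of_lt (h0_lt (by rw [rp_GG, hr]; exact h))).1]
      ring
  · intro x
    show GG (TM (thw m n) 0 (GI (TM θ' 0 x))) = x
    rw [TM_zero, TM_zero, GG_GI]
  · intro x
    show GG (TM (thw m n) 1 (GI (TM θ' 1 x))) = psi γ x
    have e1 : ∀ y, TM (thw m n) 1 y = y := fun y => by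
      apply io_injective
      rw [io_TM]
      funext i
      have := rot_add_int 0 (ww m n i) (io y i)
      rw [zero_add, rot_zero] at this
      simp only [TT, thw, one_mul, this]
    rw [e1, GG_GI]
    apply io_injective
    rw [psi, io_TM, io_TM]
    funext i
    have := rot_add_int (γ * thk 1 i (io x i).2.2) (ww m n i) (io x i)
    simp only [TT, θ', thw]
    rw [← this]
    congr 1
    simp only [thk]
    ring

/-! ### areas -/

lemma hd_hor {B : Type} [NormedAddCommGroup B] [NormedSpace ℝ B] {f : ℝ × ℝ → B}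
    (hf : ContDiff ℝ ∞ f) (t u : ℝ) :
    HasDerivAt (fun s => f (s, u)) (fderiv ℝ f (t, u) (1, 0)) t :=
  ((hf.differentiable (by simp)) (t, u)).hasFDerivAt.comp_hasDerivAt t
    ((hasDerivAt_id t).prodMk (hasDerivAt_const t u))

lemma hd_vert {B : Type} [NormedAddCommGroup B] [NormedSpace ℝ B] {f : ℝ × ℝ → B}
    (hf : ContDiff ℝ ∞ f) (t u : ℝ) :
    HasDerivAt (fun s => f (t, s)) (fderiv ℝ f (t, u) (0, 1)) u :=
  ((hf.differentiable (by simp)) (t, u)).hasFDerivAt.comp_hasDerivAt u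
    ((hasDerivAt_const u t).prodMk (hasDerivAt_id u))

lemma sq_of_gen {h : ℝ → MM → ℝ} {Φ : ℝ → MM → MM} (hh : SmF IN h) (hΦ : SmM IN Φ)
    (g : Gen om h Φ) {c : ℝ → MM} (hc : ContMDiff 𝓘(ℝ, ℝ) IN ∞ c) :
    Sq (fun p => io (Φ p.1 (c p.2))) (fun p => h p.1 (Φ p.1 (c p.2))) := by
  have p1 : ContMDiff 𝓘(ℝ, ℝ × ℝ) 𝓘(ℝ, ℝ) ∞ (fun p : ℝ × ℝ => p.1) := contDiff_fst.contMDiff
  have p2 : ContMDiff 𝓘(ℝ, ℝ × ℝ) 𝓘(ℝ, ℝ) ∞ (fun p : ℝ × ℝ => p.2) := contDiff_snd.contMDiff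
  have a1 : ContMDiff 𝓘(ℝ, ℝ × ℝ) IN ∞ (fun p : ℝ × ℝ => Φ p.1 (c p.2)) :=
    ContMDiff.comp (f := fun p : ℝ × ℝ => (p.1, c p.2)) hΦ (p1.prodMk (hc.comp p2))
  have a2 : ContDiff ℝ ∞ (fun p : ℝ × ℝ => io (Φ p.1 (c p.2))) :=
    contMDiff_iff_contDiff.1 (contMDiff_io.comp a1)
  have a3 : ContDiff ℝ ∞ (fun p : ℝ × ℝ => h p.1 (Φ p.1 (c p.2))) :=
    contMDiff_iff_contDiff.1
      (ContMDiff.comp (f := fun p : ℝ × ℝ => (p.1, Φ p.1 (c p.2))) hh (p1.prodMk a1))
  refine ⟨a2, a3, fun p => (io_mem _).1, ?_⟩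
  rintro ⟨t, u⟩
  obtain ⟨X, hX, hX'⟩ := g t (c u)
  have b1 := (hd_hor a2 t u).unique (curve_deriv hX)
  have hcu : MDifferentiableAt 𝓘(ℝ, ℝ) IN (fun s => Φ t (c s)) u :=
    (((hΦ.slice t).comp hc) u).mdifferentiableAt (by simp)
  obtain ⟨Y, hY, hY'⟩ := curve_lift hcu (hd_vert a2 t u)
  have b3 : fderiv ℝ (fun p : ℝ × ℝ => h p.1 (Φ p.1 (c p.2))) (t, u) (0, 1)
      = mvfderiv IN (h t) (Φ t (c u)) Y := by
    have h1 := (((hh.slice t) (Φ t (c u))).mdifferentiableAt (by simp)).hasMFDerivAt.comp u hY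
    have h2 : HasMFDerivAt 𝓘(ℝ, ℝ) 𝓘(ℝ, ℝ) (fun s => h t (Φ t (c s))) u
        (ContinuousLinearMap.toSpanSingleton ℝ
          (fderiv ℝ (fun p : ℝ × ℝ => h p.1 (Φ p.1 (c p.2))) (t, u) (0, 1))) :=
      (hd_vert a3 t u).hasFDerivAt.hasMFDerivAt
    have h3 := h2.mfderiv.symm.trans h1.mfderiv
    have h4 := congrArg (fun L : ℝ →L[ℝ] ℝ => L 1) h3
    refine (one_smul ℝ _).symm.trans (h4.trans ?_)
    exact congrArg (mvfderiv IN (h t) (Φ t (c u))) (one_smul ℝ Y)
  rw [b1, ← hY', b3, ← hX' Y]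
  rfl

/-- the height along the path -/
def hh (ε u : ℝ) : ℝ := (1 - ε) * (1 - 2 * smoothTransition u)

lemma hh_sq {ε : ℝ} (h0 : 0 < ε) (h1 : ε < 1) (u : ℝ) : 0 < 1 - hh ε u ^ 2 := by
  have a1 := smoothTransition.nonneg u
  have a2 := smoothTransition.le_one u
  have : |hh ε u| < 1 := by
    rw [abs_lt, hh]
    constructor <;> nlinarith
  have := sq_lt_one_iff_abs_lt_one (hh ε u) |>.2 this
  linarith

def cA (ε u : ℝ) : W := fun _ => (√(1 - hh ε u ^ 2), 0, hh ε u)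

lemma rr_cA (ε u : ℝ) : rr (cA ε u) = A4 / 2 * (1 - hh ε u) := by
  simp only [rr, cA, A4, Fin.sum_univ_four]
  ring

lemma cA_mem {ε : ℝ} (h0 : 0 < ε) (h1 : ε < 1) (u : ℝ) : cA ε u ∈ Sig := by
  have h := hh_sq h0 h1 u
  have hA := A4_ge
  refine ⟨fun i => ?_, ?_, ?_⟩
  · simp only [dot3, cA]
    rw [Real.mul_self_sqrt h.le]
    ring
  · rw [rr_cA]
    intro e
    have : hh ε u = 1 := by nlinarith
    rw [this] at h; norm_num at h
  · rw [rr_cA]
    intro e
    have : hh ε u = -1 := by nlinarith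
    rw [this] at h; norm_num at h

lemma contDiff_cA {ε : ℝ} (h0 : 0 < ε) (h1 : ε < 1) : ContDiff ℝ ∞ (cA ε) := by
  have a1 : ContDiff ℝ ∞ (hh ε) :=
    contDiff_const.mul (contDiff_const.sub (contDiff_const.mul smoothTransition.contDiff))
  rw [contDiff_pi]
  intro i
  exact ((contDiff_const.sub (a1.pow 2)).sqrt fun u => (hh_sq h0 h1 u).ne').prodMk
    (contDiff_const.prodMk a1)

theorem exists_pair {s : ℝ} (hs : psi s ∈ HamC om) : ∃ f g, Pair f g s := by
  obtain ⟨K, h, Φ, hK, hh', hΦ, g, hsupp, h0, h1⟩ := exists_gen_of_mem_HamC hs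
  have hA := A4_ge
  obtain ⟨δ₁, hδ₁, H₁⟩ := hK.exists_forall_le' (f := rp) continuous_rp.continuousOn (a := 0)
    fun x _ => lt_of_le_of_ne (io_mem x).1.rr_nonneg (io_mem x).2.1.symm
  obtain ⟨δ₂, hδ₂, H₂⟩ := hK.exists_forall_le' (f := fun x => A4 - rp x)
    (continuous_const.sub continuous_rp).continuousOn (a := 0)
    fun x _ => sub_pos.2 (lt_of_le_of_ne (io_mem x).1.rr_le (io_mem x).2.2)
  obtain ⟨δ, hδ, d1, d2, d3⟩ : ∃ δ : ℝ, 0 < δ ∧ δ ≤ δ₁ ∧ δ ≤ δ₂ ∧ δ ≤ 1 / 2 :=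
    ⟨min (min δ₁ δ₂) (1 / 2), by positivity, (min_le_left _ _).trans (min_le_left _ _),
      (min_le_left _ _).trans (min_le_right _ _), min_le_right _ _⟩
  have e0 : 0 < δ / A4 := by positivity
  have e1 : δ / A4 < 1 := by rw [div_lt_one (by linarith)]; linarith
  let c : ℝ → MM := fun u => mkM (cA (δ / A4) u) (cA_mem e0 e1 u)
  have hio : ∀ u, io (c u) = cA (δ / A4) u := fun u => io_mkM _ _
  have hc : ContMDiff 𝓘(ℝ, ℝ) IN ∞ c := by
    apply contMDiff_of_io
    simp only [hio]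
    exact (contDiff_cA e0 e1).contMDiff
  have r0 : rp (c 0) = δ / 2 := by
    rw [rp, hio, rr_cA, hh, smoothTransition.zero]
    field_simp
    ring
  have r1 : rp (c 1) = A4 - δ / 2 := by
    rw [rp, hio, rr_cA, hh, smoothTransition.one]
    field_simp
    ring
  have n0 : c 0 ∉ K := fun hx => by have := H₁ _ hx; rw [r0] at this; linarith
  have n1 : c 1 ∉ K := fun hx => by have := H₂ _ hx; rw [r1] at this; linarith
  have m0 : c 0 ∉ K0 := fun hx => by have := hx.1; rw [r0] at this; linarith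
  have m1 : c 1 ∉ K0 := fun hx => by have := hx.2; rw [r1] at this; linarith
  have fx : ∀ {x}, x ∉ K → ∀ t, Φ t x = x := fun hx t =>
    g.fixed om_nondeg contMDiff_io io_injective hK hsupp h0 hx t
  have S1 := sq_of_gen hh' hΦ g hc
  have S2 := sq_of_gen (smF_hamT (contDiff_fk s)) (fam_TM (contDiff_thk s)).sm
    (gen_TM (contDiff_thk s) (contDiff_fk s) fun i z => (hasDerivAt_fk s i z).deriv) hc
  refine ⟨_, _, ⟨_, _, S1, S2, ?_, ?_, ?_, ?_⟩, ?_, ?_, ?_, ?_⟩
  · intro t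
    show h t (Φ t (c 0)) = 0
    rw [fx n0, hsupp t _ n0]
  · intro t
    show h t (Φ t (c 1)) = 0
    rw [fx n1, hsupp t _ n1]
  · intro t
    show hamT (fk s) (io (TM (thk s) t (c 0))) = 0
    rw [TM_thk, psi_of_notMem _ m0, hamT_fk, (kap_of_gt (h0_gt (by rw [r0]; linarith))).1, mul_zero]
  · intro t
    show hamT (fk s) (io (TM (thk s) t (c 1))) = s
    rw [TM_thk, psi_of_notMem _ m1, hamT_fk, (kap_of_lt (h0_lt (by rw [r1]; linarith))).1, mul_one]
  · intro u
    show io (Φ 0 (c u)) = io (TM (thk s) 0 (c u))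
    rw [h0, TM_zero]
  · intro u
    show io (Φ 1 (c u)) = io (TM (thk s) 1 (c u))
    rw [h1, TM_thk, one_mul]
  · intro t
    show io (Φ t (c 0)) = io (TM (thk s) t (c 0))
    rw [fx n0, TM_thk, psi_of_notMem _ m0]
  · intro t
    show io (Φ t (c 1)) = io (TM (thk s) t (c 1))
    rw [fx n1, TM_thk, psi_of_notMem _ m1]

theorem exists_notMem : ∃ s, psi s ∉ HamC om := by
  by_contra h
  push Not at h
  exact not_forall_pair fun s => exists_pair (h s)

theorem exists_seq (s : ℝ) : ∃ a : ℕ → ℝ, (∀ k, psi (a k) ∈ HamC om) ∧ Tendsto a atTop (𝓝 s) := by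
  have hπ : (8 * π : ℝ) ≠ 0 := by positivity
  have hd : Dense (AddSubgroup.closure {8 * π * √2, 8 * π} : Set ℝ) := by
    rw [dense_addSubgroupClosure_pair_iff, mul_div_cancel_left₀ _ hπ]
    exact irrational_sqrt_two
  obtain ⟨a, ha, hlim⟩ := mem_closure_iff_seq_limit.1 (hd s)
  refine ⟨a, fun k => ?_, hlim⟩
  obtain ⟨n, m, e⟩ := AddSubgroup.mem_closure_pair.1 (ha k)
  have : a k = 8 * π * (m + n * √2) := by
    rw [← e]; simp only [zsmul_eq_mul]; ring
  rw [this]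
  exact psi_mem_HamC m n

theorem c0Tendsto_psi {a : ℕ → ℝ} {s : ℝ} (h : Tendsto a atTop (𝓝 s)) :
    C0Tendsto (fun k => psi (a k)) (psi s) := by
  refine ⟨⟨K0, isCompact_K0, fun k x hx => psi_of_notMem _ hx, fun x hx => psi_of_notMem _ hx⟩, ?_⟩
  intro d hd hd0 ε hε
  have hc : Continuous fun p : ℝ × MM => psi p.1 p.2 := (fam_TM (contDiff_thk 1)).sm.continuous
  have hc2 : Continuous fun p : ℝ × MM => |d (psi p.1 p.2, psi s p.2)| :=
    (hd.comp (hc.prodMk (hc.comp (continuous_const.prodMk continuous_snd)))).abs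
  have key : ∀ᶠ t in 𝓝 s, ∀ x ∈ K0, |d (psi t x, psi s x)| < ε := by
    refine isCompact_K0.eventually_forall_of_forall_eventually
      (P := fun t x => |d (psi t x, psi s x)| < ε) fun x _ => ?_
    refine hc2.continuousAt.eventually_lt continuousAt_const ?_
    simp only [hd0, abs_zero, hε]
  filter_upwards [h.eventually key] with k hk x
  by_cases hx : x ∈ K0
  · exact hk x hx
  · rw [psi_of_notMem _ hx, psi_of_notMem _ hx, hd0, abs_zero]; exact hε

theorem connectedSpace_MM : ConnectedSpace MM := by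
  let D : Set ((Fin 4 → ℝ) × (Fin 4 → ℝ)) := {q | (∀ i, -1 ≤ q.2 i ∧ q.2 i ≤ 1) ∧
    0 < ∑ i, 2 * aa i * (1 - q.2 i) ∧ ∑ i, 2 * aa i * (1 - q.2 i) < A4}
  let σ : (Fin 4 → ℝ) × (Fin 4 → ℝ) → W := fun q i =>
    (√(1 - q.2 i ^ 2) * cos (q.1 i), √(1 - q.2 i ^ 2) * sin (q.1 i), q.2 i)
  have hσ : Continuous σ := by fun_prop
  have hD : Convex ℝ D := by
    intro x hx y hy a b ha hb hab
    obtain rfl : b = 1 - a := by linarith
    have e : ∑ i, 2 * aa i * (1 - (a • x + (1 - a) • y).2 i)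
        = a * ∑ i, 2 * aa i * (1 - x.2 i) + (1 - a) * ∑ i, 2 * aa i * (1 - y.2 i) := by
      simp only [Finset.mul_sum, ← Finset.sum_add_distrib]
      exact Finset.sum_congr rfl fun i _ => by simp; ring
    obtain ⟨x1, x2, x3⟩ := hx
    obtain ⟨y1, y2, y3⟩ := hy
    refine ⟨fun i => ?_, ?_, ?_⟩
    · have := x1 i
      have := y1 i
      simp only [Prod.snd_add, Prod.smul_snd, Pi.add_apply, Pi.smul_apply, smul_eq_mul]
      constructor <;> nlinarith
    · rw [e]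
      rcases ha.eq_or_lt with rfl | ha'
      · simpa using y2
      · nlinarith [mul_pos ha' x2, mul_nonneg hb y2.le]
    · rw [e]
      rcases ha.eq_or_lt with rfl | ha'
      · simpa using y3
      · nlinarith [mul_pos ha' (sub_pos.2 x3), mul_nonneg hb (sub_pos.2 y3).le]
  have him : σ '' D = Sig := by
    ext X
    constructor
    · rintro ⟨q, ⟨q1, q2, q3⟩, rfl⟩
      refine ⟨fun i => ?_, q2.ne', q3.ne⟩
      have h1 : 0 ≤ 1 - q.2 i ^ 2 := by nlinarith [q1 i]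
      have h2 := Real.mul_self_sqrt h1
      have h3 := cos_sq_add_sin_sq (q.1 i)
      simp only [dot3, σ]
      linear_combination (cos (q.1 i) ^ 2 + sin (q.1 i) ^ 2) * h2 + (1 - q.2 i ^ 2) * h3
    · rintro ⟨hS, h1, h2⟩
      refine ⟨(fun i => Complex.arg ⟨(X i).1, (X i).2.1⟩, fun i => (X i).2.2),
        ⟨fun i => ⟨hS.le_h i, hS.h_le i⟩, lt_of_le_of_ne hS.rr_nonneg h1.symm,
          lt_of_le_of_ne hS.rr_le h2⟩, funext fun i => ?_⟩
      have hn : √(1 - (X i).2.2 ^ 2) = ‖(⟨(X i).1, (X i).2.1⟩ : ℂ)‖ := by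
        rw [Complex.norm_def, Complex.normSq_mk]
        congr 1
        have := hS i
        unfold dot3 at this
        linarith
      simp only [σ]
      rw [hn, Complex.norm_mul_cos_arg, Complex.norm_mul_sin_arg]
  have hpre : IsPreconnected Sig := him ▸ hD.isPreconnected.image σ hσ.continuousOn
  have : PreconnectedSpace MM := ⟨by
    rw [← isInducing_io.isPreconnected_image, image_univ, range_io]; exact hpre⟩
  exact ⟨⟨mkM (cA (1 / 2) 0) (cA_mem (by norm_num) (by norm_num) 0)⟩⟩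

end Pool.Agent.H521Z.Flux
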