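import Pool.Agent.H521Z.Flux.Mfd
import Pool.Agent.H521Z.Flux.Loc

/-!
# The symplectomorphisms of the punctured product of spheres
-/

open scoped Manifold ContDiff Topology
open Set Filter Real Metric TopologicalSpace

noncomputable section

namespace Pool.Agent.H521Z.Flux

def lift (F : W → W) (hF : ∀ X ∈ Sig, F X ∈ Sig) (x : MM) : MM := mkM (F (io x)) (hF _ (io_mem x))

lemma io_lift (F : W → W) (hF : ∀ X ∈ Sig, F X ∈ Sig) (x : MM) : io (lift F hF x) = F (io x) :=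
  io_mkM _ _

section amb

variable {B : Type} [NormedAddCommGroup B] [NormedSpace ℝ B]

lemma hasMFDerivAt_amb {k : W → B} {x : MM} (hk : DifferentiableAt ℝ k (io x)) :
    HasMFDerivAt IN 𝓘(ℝ, B) (fun y => k (io y)) x
      ((fderiv ℝ k (io x)).comp (Dio x) : EN →L[ℝ] B) :=
  hk.hasFDerivAt.hasMFDerivAt.comp x (hasMFDerivAt_io x)

lemma mvfderiv_amb {k : W → B} {x : MM} (hk : DifferentiableAt ℝ k (io x)) (v : EN) :
    mvfderiv IN (fun y => k (io y)) x v = fderiv ℝ k (io x) (Dio x v) :=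
  congrArg (fun L : EN →L[ℝ] B => L v) (hasMFDerivAt_amb hk).mfderiv

lemma chain_amb {φ : MM → MM} {x : MM} (hφ : MDifferentiableAt IN IN φ x) {k l : W → B}
    (hk : DifferentiableAt ℝ k (io (φ x))) (hl : DifferentiableAt ℝ l (io x))
    (h : (fun y => k (io (φ y))) =ᶠ[𝓝 x] fun y => l (io y)) (v : EN) :
    fderiv ℝ k (io (φ x)) (Dio (φ x) (mfderiv IN IN φ x v)) = fderiv ℝ l (io x) (Dio x v) := by
  have h1 := (hasMFDerivAt_amb hk).comp x hφ.hasMFDerivAt
  have h2 := (hasMFDerivAt_amb hl).congr_of_eventuallyEq h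
  have h3 := h1.mfderiv.symm.trans h2.mfderiv
  exact congrArg (fun L : EN →L[ℝ] B => L v) h3

end amb

lemma Dio_mfderiv {φ : MM → MM} {x : MM} (hφ : MDifferentiableAt IN IN φ x) {F : W → W}
    (hF : DifferentiableAt ℝ F (io x)) (h : (fun y => io (φ y)) =ᶠ[𝓝 x] fun y => F (io y))
    (v : EN) : Dio (φ x) (mfderiv IN IN φ x v) = fderiv ℝ F (io x) (Dio x v) := by
  have := chain_amb hφ (k := id) differentiableAt_id hF h v
  rwa [fderiv_id] at this

lemma curve_lift {c : ℝ → MM} {t : ℝ} (hc : MDifferentiableAt 𝓘(ℝ, ℝ) IN c t) {U : W}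
    (hU : HasDerivAt (fun s => io (c s)) U t) :
    ∃ X : TangentSpace IN (c t), HasMFDerivAt 𝓘(ℝ, ℝ) IN c t ((1 : ℝ →L[ℝ] ℝ).smulRight X) ∧
      Dio (c t) X = U := by
  refine ⟨mfderiv 𝓘(ℝ, ℝ) IN c t (1 : ℝ), ?_, ?_⟩
  · refine hc.hasMFDerivAt.congr_mfderiv ?_
    apply ContinuousLinearMap.ext_ring
    exact (one_smul ℝ _).symm
  · have h1 := (hasMFDerivAt_io (c t)).comp t hc.hasMFDerivAt
    have h2 : HasMFDerivAt 𝓘(ℝ, ℝ) 𝓘(ℝ, W) (fun s => io (c s)) t
        (ContinuousLinearMap.toSpanSingleton ℝ U) := hU.hasFDerivAt.hasMFDerivAt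
    have h3 := h1.mfderiv.symm.trans h2.mfderiv
    exact (congrArg (fun L : ℝ →L[ℝ] W => L 1) h3).trans (one_smul ℝ U)

lemma curve_deriv {c : ℝ → MM} {t : ℝ} {X : TangentSpace IN (c t)}
    (hc : HasMFDerivAt 𝓘(ℝ, ℝ) IN c t ((1 : ℝ →L[ℝ] ℝ).smulRight X)) :
    HasDerivAt (fun s => io (c s)) (Dio (c t) X) t := by
  have h1 := (hasMFDerivAt_io (c t)).comp t hc
  have h2 : HasMFDerivAt 𝓘(ℝ, ℝ) 𝓘(ℝ, W) (fun s => io (c s)) t
      (ContinuousLinearMap.toSpanSingleton ℝ (Dio (c t) X)) := by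
    refine h1.congr_mfderiv ?_
    apply ContinuousLinearMap.ext_ring
    show Dio (c t) ((1 : ℝ) • X) = (1 : ℝ) • Dio (c t) X
    rw [one_smul, one_smul]
  exact (hasMFDerivAt_iff_hasFDerivAt.1 h2 :
    HasFDerivAt (fun s => io (c s)) (ContinuousLinearMap.toSpanSingleton ℝ (Dio (c t) X)) t)

/-! ### rotations -/

def TM (θ : Fin 4 → ℝ → ℝ) (t : ℝ) : MM → MM := lift (TT θ t) fun _ h => TT_mem h θ t

lemma io_TM (θ : Fin 4 → ℝ → ℝ) (t : ℝ) (x : MM) : io (TM θ t x) = TT θ t (io x) := io_lift _ _ _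

lemma smM_TM {θ : Fin 4 → ℝ → ℝ} (hθ : ∀ i, ContDiff ℝ ∞ (θ i)) {a : ℝ → ℝ}
    (ha : ContDiff ℝ ∞ a) : SmM IN (fun t => TM θ (a t)) := by
  apply contMDiff_of_io
  simp only [io_TM]
  have h1 : ContMDiff (𝓘(ℝ, ℝ).prod IN) 𝓘(ℝ, ℝ × W) ∞ (fun p : ℝ × MM => (a p.1, io p.2)) :=
    (ha.contMDiff.comp contMDiff_fst).prodMk_space (contMDiff_io.comp contMDiff_snd)
  have h2 := (contDiff_TT hθ).contMDiff.comp h1
  exact h2.congr fun p => rfl

lemma TM_neg (θ : Fin 4 → ℝ → ℝ) (t : ℝ) (x : MM) : TM θ (-t) (TM θ t x) = x := by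
  apply io_injective
  rw [io_TM, io_TM, TT_neg]

lemma TM_zero (θ : Fin 4 → ℝ → ℝ) (x : MM) : TM θ 0 x = x := by
  apply io_injective
  rw [io_TM, TT_zero]

lemma fam_TM {θ : Fin 4 → ℝ → ℝ} (hθ : ∀ i, ContDiff ℝ ∞ (θ i)) :
    Fam om (TM θ) (fun t => TM θ (-t)) where
  sm := smM_TM hθ contDiff_id
  smi := smM_TM hθ contDiff_neg
  li t x := TM_neg θ t x
  ri t x := by simpa using TM_neg θ (-t) x
  sy t x v w := by
    have hd : DifferentiableAt ℝ (TT θ t) (io x) :=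
      (((contDiff_TT hθ).comp (contDiff_const.prodMk contDiff_id :
        ContDiff ℝ ∞ (fun X : W => (t, X)))).differentiable (by simp)) _
    have hm : MDifferentiableAt IN IN (TM θ t) x :=
      (((smM_TM hθ contDiff_id).slice t) x).mdifferentiableAt (by simp)
    have e : (fun y => io (TM θ t y)) =ᶠ[𝓝 x] fun y => TT θ t (io y) :=
      Eventually.of_forall (io_TM θ t)
    rw [om_apply, om_apply, Dio_mfderiv hm hd e, Dio_mfderiv hm hd e, io_TM]
    exact Om_TT hθ t (tan_Dio x v) (tan_Dio x w)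

lemma smF_hamT {f : Fin 4 → ℝ → ℝ} (hf : ∀ i, ContDiff ℝ ∞ (f i)) :
    SmF IN (fun _ x => hamT f (io x)) :=
  smF_const ((contDiff_hamT hf).contMDiff.comp contMDiff_io)

lemma gen_TM {θ f : Fin 4 → ℝ → ℝ} (hθ : ∀ i, ContDiff ℝ ∞ (θ i)) (hf : ∀ i, ContDiff ℝ ∞ (f i))
    (h : ∀ i z, deriv (f i) z = aa i * θ i z) : Gen om (fun _ x => hamT f (io x)) (TM θ) := by
  intro t x
  have hc : MDifferentiableAt 𝓘(ℝ, ℝ) IN (fun s => TM θ s x) t := by
    have h1 : ContMDiff 𝓘(ℝ, ℝ) IN ∞ (fun s => TM θ s x) :=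
      ContMDiff.comp (f := fun s : ℝ => (s, x)) (smM_TM hθ contDiff_id)
        (contMDiff_id.prodMk contMDiff_const)
    exact (h1 t).mdifferentiableAt (by simp)
  have hU : HasDerivAt (fun s => io (TM θ s x)) (velT θ (io (TM θ t x))) t := by
    simp only [io_TM]
    exact hasDerivAt_TT θ t (io x)
  obtain ⟨X, hX, hX'⟩ := curve_lift hc hU
  refine ⟨X, hX, fun w => ?_⟩
  rw [om_apply, hX', Om_velT θ (io_mem _).1 (tan_Dio _ w),
    mvfderiv_amb (((contDiff_hamT hf).differentiable (by simp)) _), fderiv_hamT hf]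
  exact Finset.sum_congr rfl fun i _ => by rw [h]

/-! ### the flip -/

def tau : MM → MM := lift flip fun _ h => flip_mem h

lemma io_tau (x : MM) : io (tau x) = flip (io x) := io_lift _ _ _

lemma tau_tau (x : MM) : tau (tau x) = x := by
  apply io_injective
  rw [io_tau, io_tau, flip_flip]

lemma contMDiff_tau : ContMDiff IN IN ∞ tau := by
  apply contMDiff_of_io
  simp only [io_tau]
  exact flip.contMDiff.comp contMDiff_io

lemma pres_tau : Pres om tau := by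
  intro x v w
  have hm : MDifferentiableAt IN IN tau x := (contMDiff_tau x).mdifferentiableAt (by simp)
  have e : (fun y => io (tau y)) =ᶠ[𝓝 x] fun y => flip (io y) := Eventually.of_forall io_tau
  rw [om_apply, om_apply, Dio_mfderiv hm flip.differentiableAt e,
    Dio_mfderiv hm flip.differentiableAt e, io_tau, flip.fderiv, Om_flip]

/-! ### the local symplectomorphism at the north poles -/

lemma h_gt {X : W} (h : OnS X) (hr : rr X < 2) (j : Fin 4) : -1 < (X j).2.2 := by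
  have h1 := h.term_le j
  have h2 := aa_ge j
  nlinarith [h.h_le j]

lemma nn_lt {z : Z} (hr : nr z < 2) (j : Fin 4) : nn z j < 4 * aa j := by
  have h1 := nn_le z j
  have h2 := aa_ge j
  linarith

open Classical in
def GA (s : ℝ) (X : W) : W := if rr X < 2 then Phi (gg s (Psi X)) else X

lemma GA_of_lt (s : ℝ) {X : W} (h : rr X < 2) : GA s X = Phi (gg s (Psi X)) := if_pos h

lemma nr_gg_Psi (s : ℝ) {X : W} (hS : OnS X) (h : rr X < 2) : nr (gg s (Psi X)) = rr X := by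
  rw [nr_gg, nr_Psi hS (h_gt hS h)]

lemma GA_of_gt (s : ℝ) {X : W} (hS : OnS X) (h : 1 < rr X) : GA s X = X := by
  by_cases h2 : rr X < 2
  · rw [GA_of_lt s h2, gg_of_gt s (by rw [nr_Psi hS (h_gt hS h2)]; exact h),
      Phi_Psi hS (h_gt hS h2)]
  · exact if_neg h2

lemma rr_GA (s : ℝ) {X : W} (hS : OnS X) : rr (GA s X) = rr X := by
  by_cases h2 : rr X < 2
  · rw [GA_of_lt s h2, rr_Phi, nr_gg_Psi s hS h2]
  · rw [GA_of_gt s hS (by linarith [not_lt.1 h2])]

lemma onS_GA (s : ℝ) {X : W} (hS : OnS X) : OnS (GA s X) := by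
  by_cases h2 : rr X < 2
  · rw [GA_of_lt s h2]
    exact onS_Phi (nn_lt (by rw [nr_gg_Psi s hS h2]; exact h2))
  · rw [GA_of_gt s hS (by linarith [not_lt.1 h2])]; exact hS

lemma GA_mem (s : ℝ) {X : W} (h : X ∈ Sig) : GA s X ∈ Sig :=
  ⟨onS_GA s h.1, by rw [rr_GA s h.1]; exact h.2.1, by rw [rr_GA s h.1]; exact h.2.2⟩

lemma Psi_GA (s : ℝ) {X : W} (hS : OnS X) (h : rr X < 2) : Psi (GA s X) = gg s (Psi X) := by
  rw [GA_of_lt s h, Psi_Phi (nn_lt (by rw [nr_gg_Psi s hS h]; exact h))]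

lemma GA_neg (s : ℝ) {X : W} (hS : OnS X) : GA (-s) (GA s X) = X := by
  by_cases h2 : rr X < 2
  · rw [GA_of_lt (-s) (by rw [rr_GA s hS]; exact h2), Psi_GA s hS h2, gg_neg,
      Phi_Psi hS (h_gt hS h2)]
  · have h3 : 1 < rr X := by linarith [not_lt.1 h2]
    rw [GA_of_gt s hS h3, GA_of_gt (-s) hS h3]

def Gp (s : ℝ) : MM → MM := lift (GA s) fun _ h => GA_mem s h

lemma io_Gp (s : ℝ) (x : MM) : io (Gp s x) = GA s (io x) := io_lift _ _ _

/-- the function `r` on the manifold -/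
def rp (x : MM) : ℝ := rr (io x)

lemma continuous_rp : Continuous rp := contDiff_rr.continuous.comp contMDiff_io.continuous

lemma rp_Gp (s : ℝ) (x : MM) : rp (Gp s x) = rp x := by
  unfold rp; rw [io_Gp, rr_GA s (io_mem x).1]

lemma rp_tau (x : MM) : rp (tau x) = A4 - rp x := by
  unfold rp; rw [io_tau, rr_flip]

lemma rp_TM (θ : Fin 4 → ℝ → ℝ) (t : ℝ) (x : MM) : rp (TM θ t x) = rp x := by
  unfold rp; rw [io_TM, rr_TT]

lemma Gp_of_gt (s : ℝ) {x : MM} (h : 1 < rp x) : Gp s x = x := by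
  apply io_injective
  rw [io_Gp, GA_of_gt s (io_mem x).1 h]

lemma Gp_neg (s : ℝ) (x : MM) : Gp (-s) (Gp s x) = x := by
  apply io_injective
  rw [io_Gp, io_Gp, GA_neg s (io_mem x).1]

lemma ev_lt {x : MM} {c : ℝ} (h : rp x < c) : ∀ᶠ y in 𝓝 x, rp y < c :=
  continuous_rp.continuousAt.eventually_lt continuousAt_const h

lemma ev_gt {x : MM} {c : ℝ} (h : c < rp x) : ∀ᶠ y in 𝓝 x, c < rp y :=
  continuousAt_const.eventually_lt continuous_rp.continuousAt h

lemma contMDiff_Gp (s : ℝ) : ContMDiff IN IN ∞ (Gp s) := by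
  apply contMDiff_of_io
  intro x
  by_cases h : rp x < 2
  · have hS := (io_mem x).1
    have h1 : ContDiffAt ℝ ∞ (fun X => Phi (gg s (Psi X))) (io x) :=
      (contDiffAt_Phi (nn_lt (by rw [nr_gg_Psi s hS h]; exact h))).comp (io x)
        ((contDiff_gg s).contDiffAt.comp (io x) (contDiffAt_Psi (h_gt hS h)))
    refine (h1.contMDiffAt.comp x (contMDiff_io x)).congr_of_eventuallyEq ?_
    filter_upwards [ev_lt h] with y hy
    rw [io_Gp, GA_of_lt s hy]; rfl
  · have h2 : 1 < rp x := by linarith [not_lt.1 h]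
    refine (contMDiff_io x).congr_of_eventuallyEq ?_
    filter_upwards [ev_gt h2] with y hy
    rw [Gp_of_gt s hy]

lemma pres_Gp (s : ℝ) : Pres om (Gp s) := by
  intro x v w
  have hm : MDifferentiableAt IN IN (Gp s) x := (contMDiff_Gp s x).mdifferentiableAt (by simp)
  by_cases h : rp x < 2
  · have hS := (io_mem x).1
    have hS' := (io_mem (Gp s x)).1
    have h' : rp (Gp s x) < 2 := by rw [rp_Gp]; exact h
    have d1 : DifferentiableAt ℝ Psi (io (Gp s x)) :=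
      (contDiffAt_Psi (h_gt hS' h')).differentiableAt (by simp)
    have d2 : DifferentiableAt ℝ Psi (io x) :=
      (contDiffAt_Psi (h_gt hS h)).differentiableAt (by simp)
    have d3 : DifferentiableAt ℝ (gg s) (Psi (io x)) :=
      ((contDiff_gg s).differentiable (by simp)) _
    have e : (fun y => Psi (io (Gp s y))) =ᶠ[𝓝 x] fun y => (gg s ∘ Psi) (io y) := by
      filter_upwards [ev_lt h] with y hy
      rw [io_Gp, Psi_GA s (io_mem y).1 hy]; rfl
    have key := chain_amb hm d1 (d3.comp _ d2) e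
    rw [fderiv_comp _ d3 d2] at key
    rw [om_apply, om_apply, ← om0_Psi hS' (h_gt hS' h') (tan_Dio _ _) (tan_Dio _ _), key, key,
      ← om0_Psi hS (h_gt hS h) (tan_Dio _ _) (tan_Dio _ _)]
    exact om0_gg s _ _ _
  · have h2 : 1 < rp x := by linarith [not_lt.1 h]
    have e : (fun y => io (Gp s y)) =ᶠ[𝓝 x] fun y => id (io y) := by
      filter_upwards [ev_gt h2] with y hy
      rw [Gp_of_gt s hy]; rfl
    rw [om_apply, om_apply, Dio_mfderiv hm differentiableAt_id e,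
      Dio_mfderiv hm differentiableAt_id e, Gp_of_gt s h2, fderiv_id]
    rfl

end Pool.Agent.H521Z.Flux
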