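import Pool.Agent.H521Z.Flux.Abs
import Pool.Agent.H521Z.Flux.Green

/-!
# The product of four spheres with two points removed
-/

open scoped Manifold ContDiff Topology
open Set Filter Real Metric TopologicalSpace

noncomputable section

namespace Pool.Agent.H521Z.Flux

theorem hasMFDerivAt_val {E : Type} [NormedAddCommGroup E] [NormedSpace ℝ E] {H : Type}
    [TopologicalSpace H] {I : ModelWithCorners ℝ E H} {M : Type} [TopologicalSpace M]
    [ChartedSpace H M] (U : Opens M) (x : U) :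
    HasMFDerivAt I I (Subtype.val : U → M) x (ContinuousLinearMap.id ℝ E) := by
  refine ⟨continuous_subtype_val.continuousAt, ?_⟩
  have h : writtenInExtChartAt I I x (Subtype.val : U → M)
      =ᶠ[𝓝[range I] (extChartAt I x x)] id := by
    filter_upwards [extChartAt_target_mem_nhdsWithin (I := I) x] with y hy
    exact (extChartAt I x).right_inv hy
  refine (hasFDerivWithinAt_id _ _).congr_of_eventuallyEq h ?_
  exact (extChartAt I x).right_inv (mem_extChartAt_target x)

abbrev R3 : Type := EuclideanSpace ℝ (Fin 3)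
abbrev E2 : Type := EuclideanSpace ℝ (Fin 2)
abbrev S2 : Type := sphere (0 : R3) 1
abbrev NN : Type := (S2 × S2) × (S2 × S2)
abbrev EN : Type := (E2 × E2) × (E2 × E2)
abbrev HN : Type := ModelProd (ModelProd E2 E2) (ModelProd E2 E2)
abbrev IN : ModelWithCorners ℝ EN HN := ((𝓡 2).prod (𝓡 2)).prod ((𝓡 2).prod (𝓡 2))

theorem factR3 : Fact (Module.finrank ℝ R3 = 2 + 1) := ⟨by simp⟩

attribute [local instance] factR3

def toV3 : R3 →L[ℝ] V3 :=
  LinearMap.toContinuousLinearMap
    { toFun := fun x => (x 0, x 1, x 2)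
      map_add' := by intro a b; simp
      map_smul' := by intro c a; simp }

def ofV3 : V3 →L[ℝ] R3 :=
  LinearMap.toContinuousLinearMap
    { toFun := fun v => !₂[v.1, v.2.1, v.2.2]
      map_add' := by intro a b; ext i; fin_cases i <;> simp
      map_smul' := by intro c a; ext i; fin_cases i <;> simp }

lemma toV3_apply (x : R3) : toV3 x = (x 0, x 1, x 2) := rfl
lemma ofV3_apply (v : V3) : ofV3 v = !₂[v.1, v.2.1, v.2.2] := rfl

lemma ofV3_toV3 (x : R3) : ofV3 (toV3 x) = x := by
  ext i; fin_cases i <;> simp [toV3_apply, ofV3_apply]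

lemma toV3_ofV3 (v : V3) : toV3 (ofV3 v) = v := by
  simp [toV3_apply, ofV3_apply]

lemma dot3_toV3 (x y : R3) : dot3 (toV3 x) (toV3 y) = inner ℝ x y := by
  simp [dot3, toV3_apply, PiLp.inner_apply, Fin.sum_univ_three]
  ring

lemma ofV3_mem {v : V3} (h : dot3 v v = 1) : ofV3 v ∈ sphere (0 : R3) 1 := by
  rw [mem_sphere_zero_iff_norm]
  have h1 := dot3_toV3 (ofV3 v) (ofV3 v)
  rw [toV3_ofV3, h, real_inner_self_eq_norm_sq] at h1
  have h2 := norm_nonneg (ofV3 v)
  nlinarith

def pr (i : Fin 4) (x : NN) : S2 := ![x.1.1, x.1.2, x.2.1, x.2.2] i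

def prT (i : Fin 4) : EN →L[ℝ] E2 :=
  ![(ContinuousLinearMap.fst ℝ E2 E2).comp (ContinuousLinearMap.fst ℝ (E2 × E2) (E2 × E2)),
    (ContinuousLinearMap.snd ℝ E2 E2).comp (ContinuousLinearMap.fst ℝ (E2 × E2) (E2 × E2)),
    (ContinuousLinearMap.fst ℝ E2 E2).comp (ContinuousLinearMap.snd ℝ (E2 × E2) (E2 × E2)),
    (ContinuousLinearMap.snd ℝ E2 E2).comp (ContinuousLinearMap.snd ℝ (E2 × E2) (E2 × E2))] i

lemma contMDiff_pr (i : Fin 4) : ContMDiff IN (𝓡 2) ∞ (pr i) := by
  fin_cases i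
  · exact contMDiff_fst.comp contMDiff_fst
  · exact contMDiff_snd.comp contMDiff_fst
  · exact contMDiff_fst.comp contMDiff_snd
  · exact contMDiff_snd.comp contMDiff_snd

lemma hasMFDerivAt_pr (i : Fin 4) (x : NN) : HasMFDerivAt IN (𝓡 2) (pr i) x (prT i) := by
  fin_cases i
  · exact (hasMFDerivAt_fst x.1).comp x (hasMFDerivAt_fst x)
  · exact (hasMFDerivAt_snd x.1).comp x (hasMFDerivAt_fst x)
  · exact (hasMFDerivAt_fst x.2).comp x (hasMFDerivAt_snd x)
  · exact (hasMFDerivAt_snd x.2).comp x (hasMFDerivAt_snd x)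

def iN (x : NN) : W := fun i => toV3 (pr i x)

lemma contMDiff_coeS2 : ContMDiff (𝓡 2) 𝓘(ℝ, R3) ∞ (fun z : S2 => (z : R3)) :=
  contMDiff_coe_sphere (n := 2) (E := R3)

lemma contMDiff_iN : ContMDiff IN 𝓘(ℝ, W) ∞ iN := by
  rw [contMDiff_pi_space]
  intro i
  exact toV3.contMDiff.comp (contMDiff_coeS2.comp (contMDiff_pr i))

lemma onS_iN (x : NN) : OnS (iN x) := fun i => by
  show dot3 (toV3 _) (toV3 _) = 1
  rw [dot3_toV3, real_inner_self_eq_norm_sq]
  simp

def mkN (X : W) (h : OnS X) : NN :=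
  ((⟨ofV3 (X 0), ofV3_mem (h 0)⟩, ⟨ofV3 (X 1), ofV3_mem (h 1)⟩),
    (⟨ofV3 (X 2), ofV3_mem (h 2)⟩, ⟨ofV3 (X 3), ofV3_mem (h 3)⟩))

lemma iN_mkN (X : W) (h : OnS X) : iN (mkN X h) = X := by
  funext i
  fin_cases i <;> exact toV3_ofV3 _

lemma iN_injective : Function.Injective iN := by
  intro x y h
  have : ∀ i, pr i x = pr i y := fun i => by
    have := congrArg ofV3 (congrFun h i)
    simp only [iN, ofV3_toV3] at this
    exact Subtype.ext this
  exact Prod.ext (Prod.ext (this 0) (this 1)) (Prod.ext (this 2) (this 3))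

def UU : Opens NN :=
  ⟨{x | rr (iN x) ≠ 0 ∧ rr (iN x) ≠ A4}, by
    have h : Continuous fun x => rr (iN x) := contDiff_rr.continuous.comp contMDiff_iN.continuous
    exact (isOpen_ne_fun h continuous_const).inter (isOpen_ne_fun h continuous_const)⟩

/-- the manifold -/
abbrev MM : Type := UU

/-- its embedding in the ambient space -/
def io (x : MM) : W := iN x.1

lemma io_mem (x : MM) : io x ∈ Sig := ⟨onS_iN _, x.2.1, x.2.2⟩

lemma contMDiff_io : ContMDiff IN 𝓘(ℝ, W) ∞ io := contMDiff_iN.comp contMDiff_subtype_val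

lemma io_injective : Function.Injective io := fun _ _ h => Subtype.ext (iN_injective h)

def mkM (X : W) (h : X ∈ Sig) : MM :=
  ⟨mkN X h.1, by
    show rr (iN _) ≠ 0 ∧ rr (iN _) ≠ A4
    rw [iN_mkN]; exact h.2⟩

lemma io_mkM (X : W) (h : X ∈ Sig) : io (mkM X h) = X := iN_mkN _ h.1

lemma range_io : range io = Sig := by
  ext X
  exact ⟨fun ⟨x, hx⟩ => hx ▸ io_mem x, fun h => ⟨mkM X h, io_mkM X h⟩⟩

lemma isInducing_io : Topology.IsInducing io := by
  have h1 : Topology.IsEmbedding iN :=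
    (contMDiff_iN.continuous.isClosedEmbedding iN_injective).isEmbedding
  exact h1.isInducing.comp Topology.IsInducing.subtypeVal

theorem contMDiff_of_io {F : Type} [NormedAddCommGroup F] [NormedSpace ℝ F] {G : Type}
    [TopologicalSpace G] {J : ModelWithCorners ℝ F G} {X : Type} [TopologicalSpace X]
    [ChartedSpace G X] [IsManifold J ∞ X] {f : X → MM}
    (h : ContMDiff J 𝓘(ℝ, W) ∞ (fun x => io (f x))) : ContMDiff J IN ∞ f := by
  rw [← ContMDiff.subtypeVal_comp_iff]
  have key : ∀ i, ContMDiff J (𝓡 2) ∞ (fun x => pr i (f x).1) := by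
    intro i
    have h1 : ContMDiff J 𝓘(ℝ, R3) ∞ (fun x => ofV3 (io (f x) i)) :=
      ofV3.contMDiff.comp (contMDiff_pi_space.1 h i)
    have h2 := h1.codRestrict_sphere (n := 2) (fun x => ofV3_mem ((io_mem (f x)).1 i))
    refine h2.congr fun x => ?_
    apply Subtype.ext
    exact (ofV3_toV3 _).symm
  exact ((key 0).prodMk (key 1)).prodMk ((key 2).prodMk (key 3))

/-- the differential of the embedding -/
def Dio (x : MM) : EN →L[ℝ] W := mvfderiv IN io x

lemma hasMFDerivAt_io (x : MM) : HasMFDerivAt IN 𝓘(ℝ, W) io x (Dio x) :=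
  ((contMDiff_io x).mdifferentiableAt (by simp)).hasMFDerivAt

/-- the differential of the inclusion of the sphere -/
def dInc (z : S2) : E2 →L[ℝ] R3 := mvfderiv (𝓡 2) (fun z : S2 => (z : R3)) z

lemma Dio_apply (x : MM) (v : EN) (i : Fin 4) : Dio x v i = toV3 (dInc (pr i x.1) (prT i v)) := by
  have h1 : HasMFDerivAt IN 𝓘(ℝ, V3) (fun x => io x i) x
      ((ContinuousLinearMap.proj i : W →L[ℝ] V3).comp (Dio x)) :=
    (ContinuousLinearMap.proj i : W →L[ℝ] V3).hasFDerivAt.hasMFDerivAt.comp x (hasMFDerivAt_io x)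
  have h2 : HasMFDerivAt (𝓡 2) 𝓘(ℝ, R3) (fun z : S2 => (z : R3)) (pr i x.1) (dInc (pr i x.1)) :=
    ((contMDiff_coeS2 _).mdifferentiableAt (by simp)).hasMFDerivAt
  have h3 := toV3.hasFDerivAt.hasMFDerivAt.comp x
    (h2.comp x ((hasMFDerivAt_pr i x.1).comp x (hasMFDerivAt_val UU x)))
  have h4 := h1.mfderiv.symm.trans h3.mfderiv
  exact congrArg (fun L : EN →L[ℝ] V3 => L v) h4

lemma Dio_injective (x : MM) : Function.Injective (Dio x) := by
  intro v w h
  have : ∀ i, prT i v = prT i w := fun i => by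
    have h1 := congrFun h i
    rw [Dio_apply, Dio_apply] at h1
    have h2 := congrArg ofV3 h1
    rw [ofV3_toV3, ofV3_toV3] at h2
    exact injective_mvfderiv_subtypeVal_sphere (n := 2) _ h2
  exact Prod.ext (Prod.ext (this 0) (this 1)) (Prod.ext (this 2) (this 3))

lemma tan_Dio (x : MM) (v : EN) : Tan (io x) (Dio x v) := fun i => by
  rw [Dio_apply]
  show dot3 (toV3 _) (toV3 _) = 0
  rw [dot3_toV3]
  have h := range_mvfderiv_subtypeVal (n := 2) (pr i x.1)
  have h1 : dInc (pr i x.1) (prT i v)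
      ∈ (mvfderiv (𝓡 2) ((↑) : sphere (0 : R3) 1 → R3) (pr i x.1)).range := ⟨_, rfl⟩
  rw [h] at h1
  exact Submodule.mem_orthogonal_singleton_iff_inner_right.1 h1

lemma exists_Dio (x : MM) {U : W} (hU : Tan (io x) U) : ∃ v, Dio x v = U := by
  have : ∀ i, ∃ w : E2, dInc (pr i x.1) w = ofV3 (U i) := fun i => by
    have h := range_mvfderiv_subtypeVal (n := 2) (pr i x.1)
    have h1 : ofV3 (U i) ∈ (mvfderiv (𝓡 2) ((↑) : sphere (0 : R3) 1 → R3) (pr i x.1)).range := by
      rw [h]
      apply Submodule.mem_orthogonal_singleton_iff_inner_right.2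
      rw [← dot3_toV3, toV3_ofV3]
      exact hU i
    exact h1
  choose w hw using this
  refine ⟨((w 0, w 1), (w 2, w 3)), funext fun i => ?_⟩
  rw [Dio_apply, ← toV3_ofV3 (U i), ← hw i]
  fin_cases i <;> rfl

/-- the ambient form -/
def OmL (X : W) : W →L[ℝ] W →L[ℝ] ℝ :=
  (LinearMap.mk₂ ℝ (Om X)
    (by
      intro a b c
      simp only [Om, ← Finset.sum_add_distrib]
      exact Finset.sum_congr rfl fun i _ => by simp [det3]; ring)
    (by
      intro c a b
      simp only [Om, smul_eq_mul, Finset.mul_sum]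
      exact Finset.sum_congr rfl fun i _ => by simp [det3]; ring)
    (by
      intro a b c
      simp only [Om, ← Finset.sum_add_distrib]
      exact Finset.sum_congr rfl fun i _ => by simp [det3]; ring)
    (by
      intro c a b
      simp only [Om, smul_eq_mul, Finset.mul_sum]
      exact Finset.sum_congr rfl fun i _ => by simp [det3]; ring)).toContinuousBilinearMap

lemma OmL_apply (X U V : W) : OmL X U V = Om X U V := rfl

/-- the symplectic form -/
def om : BilinField IN MM := fun x =>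
  ((OmL (io x)).bilinearComp (Dio x) (Dio x) : EN →L[ℝ] EN →L[ℝ] ℝ)

lemma om_apply (x : MM) (v w : EN) : om x v w = Om (io x) (Dio x v) (Dio x w) := rfl

lemma om_nondeg (x : MM) (v : TangentSpace IN x) (h : ∀ w, om x v w = 0) : v = 0 := by
  obtain ⟨X, hX⟩ : ∃ X, X = io x := ⟨_, rfl⟩
  obtain ⟨U, hU⟩ : ∃ U, U = Dio x v := ⟨_, rfl⟩
  have hS : OnS X := hX ▸ (io_mem x).1
  have hT : Tan X U := by rw [hX, hU]; exact tan_Dio x v
  let V : W := fun i => ((X i).2.1 * (U i).2.2 - (X i).2.2 * (U i).2.1,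
    (X i).2.2 * (U i).1 - (X i).1 * (U i).2.2, (X i).1 * (U i).2.1 - (X i).2.1 * (U i).1)
  have hV : Tan (io x) V := fun i => by rw [← hX]; simp only [dot3, V]; ring
  obtain ⟨w, hw⟩ := exists_Dio x hV
  have h1 := h w
  rw [om_apply, hw, ← hX, ← hU] at h1
  have h2 : Om X U V = ∑ i, aa i * dot3 (U i) (U i) := by
    refine Finset.sum_congr rfl fun i _ => ?_
    have a1 := hS i
    have a2 := hT i
    simp only [dot3, det3, V] at *
    linear_combination (aa i * ((U i).1 * (U i).1 + (U i).2.1 * (U i).2.1 + (U i).2.2 * (U i).2.2))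
      * a1 - (aa i * ((X i).1 * (U i).1 + (X i).2.1 * (U i).2.1 + (X i).2.2 * (U i).2.2)) * a2
  rw [h2] at h1
  have h3 : ∀ i ∈ Finset.univ, 0 ≤ aa i * dot3 (U i) (U i) := fun i _ => by
    have := aa_pos i
    refine mul_nonneg this.le ?_
    unfold dot3
    nlinarith [mul_self_nonneg (U i).1, mul_self_nonneg (U i).2.1, mul_self_nonneg (U i).2.2]
  have h4 := (Finset.sum_eq_zero_iff_of_nonneg h3).1 h1
  have h5 : U = 0 := by
    funext i
    have h6 := (mul_eq_zero.1 (h4 i (Finset.mem_univ i))).resolve_left (aa_pos i).ne'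
    unfold dot3 at h6
    have b1 := mul_self_nonneg (U i).1
    have b2 := mul_self_nonneg (U i).2.1
    have b3 := mul_self_nonneg (U i).2.2
    refine Prod.ext ?_ (Prod.ext ?_ ?_)
    · exact mul_self_eq_zero.1 (by linarith)
    · exact mul_self_eq_zero.1 (by linarith)
    · exact mul_self_eq_zero.1 (by linarith)
  apply Dio_injective x
  rw [← hU, h5]
  exact (map_zero _).symm

lemma chart_aux (x₀ : MM) {y : EN} (hy : y ∈ (extChartAt IN x₀).target) :
    ContDiffAt ℝ ∞ (fun y => io ((extChartAt IN x₀).symm y)) y ∧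
      ∀ b c, formInChart om x₀ y b c = Om (io ((extChartAt IN x₀).symm y))
        (fderiv ℝ (fun y => io ((extChartAt IN x₀).symm y)) y b)
        (fderiv ℝ (fun y => io ((extChartAt IN x₀).symm y)) y c) := by
  have h1 : ContMDiffAt 𝓘(ℝ, EN) IN ∞ (extChartAt IN x₀).symm y :=
    (contMDiffOn_extChartAt_symm x₀).contMDiffAt ((isOpen_extChartAt_target x₀).mem_nhds hy)
  have h2 : ContMDiffAt 𝓘(ℝ, EN) 𝓘(ℝ, W) ∞ (fun y => io ((extChartAt IN x₀).symm y)) y :=
    (contMDiff_io _).comp y h1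
  refine ⟨contMDiffAt_iff_contDiffAt.1 h2, fun b c => ?_⟩
  have h3 := (hasMFDerivAt_io _).comp y (h1.mdifferentiableAt (by simp)).hasMFDerivAt
  have h5 : mfderiv 𝓘(ℝ, EN) 𝓘(ℝ, W) (fun y => io ((extChartAt IN x₀).symm y)) y
      = fderiv ℝ (fun y => io ((extChartAt IN x₀).symm y)) y := mfderiv_eq_fderiv
  have h4 := h5.symm.trans h3.mfderiv
  rw [h4]
  rfl

theorem isSymplecticForm_om : IsSymplecticForm om where
  alternating x v := by
    rw [om_apply]
    exact Finset.sum_eq_zero fun i _ => by simp only [det3]; ring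
  nondegenerate := om_nondeg
  smooth x₀ := by
    rw [contDiffOn_clm_apply]
    intro b
    rw [contDiffOn_clm_apply]
    intro c y hy
    refine ((contDiffAt_Om_pull (chart_aux x₀ hy).1 b c).contDiffWithinAt).congr
      (fun y' hy' => (chart_aux x₀ hy').2 b c) ((chart_aux x₀ hy).2 b c)
  closed x₀ y hy a b c := by
    have hsm : ContDiffOn ℝ ∞ (formInChart om x₀) (extChartAt IN x₀).target := by
      rw [contDiffOn_clm_apply]
      intro b
      rw [contDiffOn_clm_apply]
      intro c y hy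
      refine ((contDiffAt_Om_pull (chart_aux x₀ hy).1 b c).contDiffWithinAt).congr
        (fun y' hy' => (chart_aux x₀ hy').2 b c) ((chart_aux x₀ hy).2 b c)
    have hn := (isOpen_extChartAt_target (I := IN) x₀).mem_nhds hy
    have hd : DifferentiableAt ℝ (formInChart om x₀) y :=
      (hsm.contDiffAt hn).differentiableAt (by simp)
    have key : ∀ a b c : EN, fderiv ℝ (formInChart om x₀) y a b c
        = fderiv ℝ (fun q => Om (io ((extChartAt IN x₀).symm q))
          (fderiv ℝ (fun y => io ((extChartAt IN x₀).symm y)) q b)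
          (fderiv ℝ (fun y => io ((extChartAt IN x₀).symm y)) q c)) y a := by
      intro a b c
      have e1 : (fun q => Om (io ((extChartAt IN x₀).symm q))
          (fderiv ℝ (fun y => io ((extChartAt IN x₀).symm y)) q b)
          (fderiv ℝ (fun y => io ((extChartAt IN x₀).symm y)) q c))
          =ᶠ[𝓝 y] fun q => formInChart om x₀ q b c := by
        filter_upwards [hn] with q hq using ((chart_aux x₀ hq).2 b c).symm
      rw [e1.fderiv_eq]
      have h1 := (hd.hasFDerivAt.clm_apply (hasFDerivAt_const b y)).clm_apply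
        (hasFDerivAt_const c y)
      rw [h1.fderiv]
      simp
    rw [key, key, key]
    exact closed_Om_pull (chart_aux x₀ hy).1 (Eventually.of_forall fun q => (io_mem _).1) a b c

end Pool.Agent.H521Z.Flux
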